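import Mathlib

set_option autoImplicit false

/-!
The module `M` over the free group `Fb`, the free group `F` with the action of `M` on it, the
Zappa-Szep product `EE` and the homomorphism to `M ⋊ Fb`.
-/

namespace Pool.Agent.Helper23.NC

/-- letters: `some i` is `b_i`, `none` is `c` -/
abbrev Lt : Type := Option (ZMod 2)
/-- free group on three letters -/
abbrev F : Type := FreeGroup Lt
/-- free group on two letters, `true` is `b`, `false` is `c` -/
abbrev Fb : Type := FreeGroup Bool
/-- two-sided binary sequences -/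
abbrev Sq : Type := ℤ → ZMod 2
/-- the module: triples `(k, x, y)` of sequences -/
abbrev M : Type := Sq × Sq × Sq

lemma Z2_add_self (a : ZMod 2) : a + a = 0 := CharTwo.add_self_eq_zero a

lemma M_add_self (m : M) : m + m = 0 := by
  refine Prod.ext ?_ (Prod.ext ?_ ?_)
  · funext h; exact Z2_add_self _
  · funext h; exact Z2_add_self _
  · funext h; exact Z2_add_self _

lemma M_cancel (m n : M) : m + (m + n) = n := by
  rw [← add_assoc, M_add_self, zero_add]

/-- action of `b` -/
def bM : M ≃+ M where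
  toFun m := (m.1, fun h => m.2.1 (h - 1), fun h => m.2.2 (h - 1))
  invFun m := (m.1, fun h => m.2.1 (h + 1), fun h => m.2.2 (h + 1))
  left_inv m := by simp
  right_inv m := by simp
  map_add' m n := rfl

/-- action of `c` as a function -/
def cFun (m : M) : M :=
  (m.1, fun h => if 1 ≤ h then m.2.2 h + m.1 h else m.2.1 h,
    fun h => if 1 ≤ h then m.2.1 h + m.1 h else m.2.2 h)

lemma cFun_cFun (m : M) : cFun (cFun m) = m := by
  refine Prod.ext rfl (Prod.ext ?_ ?_)
  · funext h
    simp only [cFun]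
    split_ifs
    · rw [add_assoc, Z2_add_self, add_zero]
    · rfl
  · funext h
    simp only [cFun]
    split_ifs
    · rw [add_assoc, Z2_add_self, add_zero]
    · rfl

/-- action of `c` -/
def cM : M ≃+ M where
  toFun := cFun
  invFun := cFun
  left_inv := cFun_cFun
  right_inv := cFun_cFun
  map_add' m n := by
    refine Prod.ext rfl (Prod.ext ?_ ?_)
    · funext h
      simp only [cFun, Prod.fst_add, Prod.snd_add, Pi.add_apply]
      split_ifs
      · ring
      · rfl
    · funext h
      simp only [cFun, Prod.fst_add, Prod.snd_add, Pi.add_apply]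
      split_ifs
      · ring
      · rfl

/-- the action of the free group `Fb` on `M`, multiplicative version -/
def rho0 : Fb →* MulAut (Multiplicative M) :=
  FreeGroup.lift fun t => if t = true then AddEquiv.toMultiplicative bM
    else AddEquiv.toMultiplicative cM

/-- the action of the free group `Fb` on `M` -/
def rho (r : Fb) (m : M) : M := (rho0 r (Multiplicative.ofAdd m)).toAdd

@[simp] lemma rho_b (m : M) : rho (FreeGroup.of true) m = bM m := by simp [rho, rho0]
@[simp] lemma rho_c (m : M) : rho (FreeGroup.of false) m = cM m := by simp [rho, rho0]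

lemma rho_mul (r s : Fb) (m : M) : rho (r * s) m = rho r (rho s m) := by
  unfold rho
  rw [map_mul]; rfl

@[simp] lemma rho_one (m : M) : rho 1 m = m := by
  unfold rho
  rw [map_one]; rfl

lemma rho_add (r : Fb) (m n : M) : rho r (m + n) = rho r m + rho r n := by
  unfold rho
  rw [ofAdd_add, map_mul, toAdd_mul]

@[simp] lemma rho_zero (r : Fb) : rho r 0 = 0 := by
  unfold rho
  rw [ofAdd_zero, map_one, toAdd_one]

@[simp] lemma rho_inv_apply (r : Fb) (m : M) : rho r⁻¹ (rho r m) = m := by
  rw [← rho_mul, inv_mul_cancel, rho_one]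

@[simp] lemma rho_apply_inv (r : Fb) (m : M) : rho r (rho r⁻¹ m) = m := by
  rw [← rho_mul, mul_inv_cancel, rho_one]

/-- induction principle on a free group -/
lemma FG_induction {α : Type} {C : FreeGroup α → Prop} (h1 : C 1)
    (hof : ∀ i, C (FreeGroup.of i))
    (hinv : ∀ p, C p → C p⁻¹) (hmul : ∀ p q, C p → C q → C (p * q)) (p : FreeGroup α) : C p := by
  induction p using FreeGroup.induction_on with
  | C1 => exact h1
  | of i => exact hof i
  | inv_of i h => exact hinv _ h
  | mul p q hp hq => exact hmul p q hp hq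

/-- the action does not change the first component -/
lemma rho_fst (r : Fb) (m : M) : (rho r m).1 = m.1 := by
  revert m
  refine FG_induction (C := fun r => ∀ m : M, (rho r m).1 = m.1) ?_ ?_ ?_ ?_ r
  · intro m; simp
  · intro i m
    cases i
    · rw [rho_c]; rfl
    · rw [rho_b]; rfl
  · intro p hp m
    have h := hp (rho p⁻¹ m)
    rw [rho_apply_inv] at h
    exact h.symm
  · intro p q hp hq m
    rw [rho_mul, hp, hq]

/-- swap of the two last components -/
def sw (m : M) : M := (m.1, m.2.2, m.2.1)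

@[simp] lemma sw_sw (m : M) : sw (sw m) = m := rfl
lemma sw_add (m n : M) : sw (m + n) = sw m + sw n := rfl
@[simp] lemma sw_zero : sw 0 = 0 := rfl

lemma sw_rho (r : Fb) (m : M) : sw (rho r m) = rho r (sw m) := by
  revert m
  refine FG_induction (C := fun r => ∀ m : M, sw (rho r m) = rho r (sw m)) ?_ ?_ ?_ ?_ r
  · intro m; simp
  · intro i m
    cases i
    · rw [rho_c, rho_c]; rfl
    · rw [rho_b, rho_b]; rfl
  · intro p hp m
    have h := hp (rho p⁻¹ m)
    rw [rho_apply_inv] at h
    rw [h, rho_inv_apply]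
  · intro p q hp hq m
    rw [rho_mul, hp, hq, rho_mul]

/-- the projection `j` -/
def jj (m : M) : M := (m.1, fun h => if 1 ≤ h then m.2.1 h else 0, m.2.2)

lemma jj_add (m n : M) : jj (m + n) = jj m + jj n := by
  refine Prod.ext rfl (Prod.ext ?_ rfl)
  funext h
  simp only [jj, Prod.fst_add, Prod.snd_add, Pi.add_apply]
  split_ifs
  · rfl
  · rfl

@[simp] lemma jj_zero : jj 0 = 0 := by
  refine Prod.ext rfl (Prod.ext ?_ rfl)
  funext h
  simp [jj]

/-- the character -/
def chi (m : M) : ZMod 2 := m.2.1 1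

lemma chi_add (m n : M) : chi (m + n) = chi m + chi n := rfl
@[simp] lemma chi_zero : chi 0 = 0 := rfl

/-- the action of `Fb` on functions `M → F` -/
def phi : Fb →* MulAut (M → F) where
  toFun r :=
    { toFun := fun u m => u (rho r⁻¹ m)
      invFun := fun u m => u (rho r m)
      left_inv := fun u => by funext m; simp
      right_inv := fun u => by funext m; simp
      map_mul' := fun u v => rfl }
  map_one' := by
    ext u m; simp
  map_mul' r s := by
    ext u m
    simp only [MulEquiv.coe_mk, Equiv.coe_fn_mk, MulAut.mul_apply]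
    rw [mul_inv_rev, rho_mul]

@[simp] lemma phi_apply (r : Fb) (u : M → F) (m : M) : phi r u m = u (rho r⁻¹ m) := rfl

/-- action of `M` on letters -/
def al (m : M) (l : Lt) : Lt := l.map (fun i => i + chi m)

@[simp] lemma al_some (m : M) (i : ZMod 2) : al m (some i) = some (i + chi m) := rfl
@[simp] lemma al_none (m : M) : al m none = none := rfl

/-- the letter below -/
def bl (l : Lt) : Bool := l.isSome

@[simp] lemma bl_some (i : ZMod 2) : bl (some i) = true := rfl
@[simp] lemma bl_none : bl none = false := rfl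

/-- the universal map -/
def Theta : F →* (M → F) ⋊[phi] Fb :=
  FreeGroup.lift fun l => ⟨fun m => FreeGroup.of (al m l), FreeGroup.of (bl l)⟩

/-- the projection `F → Fb` -/
def bar : F →* Fb := FreeGroup.lift fun l => FreeGroup.of (bl l)

@[simp] lemma bar_of (l : Lt) : bar (FreeGroup.of l) = FreeGroup.of (bl l) := by simp [bar]

lemma Theta_right (p : F) : (Theta p).right = bar p := by
  have h : (SemidirectProduct.rightHom (φ := phi)).comp Theta = bar := by
    apply FreeGroup.ext_hom
    intro l
    simp [Theta]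
  exact DFunLike.congr_fun h p

/-- the action of `M` on `F` -/
def act (m : M) (p : F) : F := (Theta p).left m

@[simp] lemma act_one (m : M) : act m 1 = 1 := by simp [act]

lemma act_mul (m : M) (p q : F) : act m (p * q) = act m p * act (rho (bar p)⁻¹ m) q := by
  simp [act, Theta_right]

@[simp] lemma act_of (m : M) (l : Lt) : act m (FreeGroup.of l) = FreeGroup.of (al m l) := by
  simp [act, Theta]

lemma act_inv (m : M) (p : F) : act m p⁻¹ = (act (rho (bar p) m) p)⁻¹ := by
  have h := act_mul (rho (bar p) m) p p⁻¹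
  rw [mul_inv_cancel, act_one, rho_inv_apply] at h
  exact eq_inv_of_mul_eq_one_right h.symm

@[simp] lemma bar_act (m : M) (p : F) : bar (act m p) = bar p := by
  revert m
  refine FG_induction (C := fun p => ∀ m, bar (act m p) = bar p) ?_ ?_ ?_ ?_ p
  · simp
  · intro l m
    cases l <;> simp
  · intro p hp m
    rw [act_inv, map_inv, map_inv, hp]
  · intro p q hp hq m
    rw [act_mul, map_mul, map_mul, hp, hq]

lemma act_act (m n : M) (p : F) : act m (act n p) = act (m + n) p := by
  revert m n
  refine FG_induction (C := fun p => ∀ m n, act m (act n p) = act (m + n) p) ?_ ?_ ?_ ?_ p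
  · simp
  · intro l m n
    cases l with
    | none => simp
    | some i =>
      simp only [act_of, al_some, chi_add]
      congr 2; ring
  · intro p hp m n
    rw [act_inv n, act_inv m, act_inv (m + n), bar_act, hp, rho_add]
  · intro p q hp hq m n
    rw [act_mul n, act_mul m, act_mul (m + n), bar_act, hp, hq, rho_add]

@[simp] lemma act_zero (p : F) : act 0 p = p := by
  refine FG_induction (C := fun p => act 0 p = p) ?_ ?_ ?_ ?_ p
  · simp
  · intro l
    cases l <;> simp
  · intro p hp
    rw [act_inv, rho_zero, hp]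
  · intro p q hp hq
    rw [act_mul, rho_zero, hp, hq]

/-- unit vector on the `x`-line -/
def ex (j : ℤ) (i : ZMod 2) : M := (0, fun h => if h = j then i else 0, 0)

/-- value of the crossed homomorphism on letters -/
def cl (l : Lt) : M := match l with
  | some i => ex 1 i
  | none => 0

/-- crossed homomorphism, packaged -/
def Rho : F →* (Multiplicative M) ⋊[rho0] Fb :=
  FreeGroup.lift fun l => ⟨Multiplicative.ofAdd (cl l), FreeGroup.of (bl l)⟩

lemma Rho_right (p : F) : (Rho p).right = bar p := by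
  have h : (SemidirectProduct.rightHom (φ := rho0)).comp Rho = bar := by
    apply FreeGroup.ext_hom
    intro l
    simp [Rho]
  exact DFunLike.congr_fun h p

/-- the crossed homomorphism -/
def cc (p : F) : M := (Rho p).left.toAdd

@[simp] lemma cc_one : cc 1 = 0 := by simp [cc]

lemma cc_mul (p q : F) : cc (p * q) = cc p + rho (bar p) (cc q) := by
  simp [cc, Rho_right, rho]

@[simp] lemma cc_of (l : Lt) : cc (FreeGroup.of l) = cl l := by
  simp [cc, Rho]

lemma cc_inv (p : F) : cc p⁻¹ = rho (bar p)⁻¹ (cc p) := by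
  have h := cc_mul p⁻¹ p
  rw [inv_mul_cancel, cc_one, map_inv] at h
  have h2 := M_add_self (rho (bar p)⁻¹ (cc p))
  calc cc p⁻¹ = cc p⁻¹ + (rho (bar p)⁻¹ (cc p) + rho (bar p)⁻¹ (cc p)) := by rw [h2, add_zero]
    _ = (cc p⁻¹ + rho (bar p)⁻¹ (cc p)) + rho (bar p)⁻¹ (cc p) := by rw [add_assoc]
    _ = _ := by rw [← h, zero_add]

/-- the defect -/
def dd (m : M) (r : Fb) : M := jj m + rho r (jj (rho r⁻¹ m))

lemma dd_mul (m : M) (r s : Fb) : dd m (r * s) = dd m r + rho r (dd (rho r⁻¹ m) s) := by
  simp only [dd, rho_add, mul_inv_rev, rho_mul]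
  rw [add_assoc, M_cancel]

@[simp] lemma dd_one (m : M) : dd m 1 = 0 := by simp [dd, M_add_self]

lemma dd_b (m : M) : dd m (FreeGroup.of true) = ex 1 (chi m) := by
  have h1 : rho (FreeGroup.of true)⁻¹ m = bM.symm m := by
    apply bM.injective
    rw [← rho_b, rho_apply_inv]
    simp
  rw [dd, h1, rho_b]
  refine Prod.ext ?_ (Prod.ext ?_ ?_)
  · funext h
    exact Z2_add_self _
  · funext h
    show (if 1 ≤ h then m.2.1 h else 0) + (if 1 ≤ h - 1 then m.2.1 (h - 1 + 1) else 0)
      = (if h = 1 then m.2.1 1 else 0)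
    by_cases h1 : h = 1
    · subst h1; simp
    · by_cases h2 : 1 ≤ h
      · have h3 : 1 ≤ h - 1 := by omega
        simp [h1, h2, h3, Z2_add_self]
      · have h3 : ¬ (1 ≤ h - 1) := by omega
        simp [h1, h2, h3]
  · funext h
    show m.2.2 h + m.2.2 (h - 1 + 1) = 0
    rw [sub_add_cancel]
    exact Z2_add_self _

lemma dd_c (m : M) : dd m (FreeGroup.of false) = 0 := by
  have h1 : rho (FreeGroup.of false)⁻¹ m = cM.symm m := by
    apply cM.injective
    rw [← rho_c, rho_apply_inv]
    simp
  rw [dd, h1, rho_c]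
  refine Prod.ext ?_ (Prod.ext ?_ ?_)
  · funext h
    exact Z2_add_self _
  · funext h
    show (if 1 ≤ h then m.2.1 h else 0) +
      (if 1 ≤ h then (if 1 ≤ h then m.2.1 h + m.1 h else m.2.2 h) + m.1 h
        else (if 1 ≤ h then (if 1 ≤ h then m.2.2 h + m.1 h else m.2.1 h) else 0)) = 0
    by_cases h2 : 1 ≤ h
    · simp only [h2, if_true]
      rw [add_assoc (m.2.1 h), Z2_add_self (m.1 h), add_zero, Z2_add_self]
    · simp only [h2, if_false, add_zero]
  · funext h
    show m.2.2 h +
      (if 1 ≤ h then (if 1 ≤ h then (if 1 ≤ h then m.2.2 h + m.1 h else m.2.1 h) else 0) + m.1 h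
        else (if 1 ≤ h then m.2.1 h + m.1 h else m.2.2 h)) = 0
    by_cases h2 : 1 ≤ h
    · simp only [h2, if_true]
      rw [add_assoc (m.2.2 h), Z2_add_self (m.1 h), add_zero, Z2_add_self]
    · simp only [h2, if_false]
      exact Z2_add_self _

lemma cc_act (m : M) (p : F) : cc (act m p) = cc p + dd m (bar p) := by
  revert m
  refine FG_induction (C := fun p => ∀ m, cc (act m p) = cc p + dd m (bar p)) ?_ ?_ ?_ ?_ p
  · intro m; simp
  · intro l m
    cases l with
    | none => simp [dd_c]
    | some i =>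
      simp only [act_of, al_some, cc_of, cl, bar_of, bl_some, dd_b]
      refine Prod.ext ?_ (Prod.ext ?_ ?_)
      · rfl
      · funext h
        simp only [ex, Prod.snd_add, Prod.fst_add, Pi.add_apply]
        split_ifs
        · rfl
        · rfl
      · rfl
  · intro p hp m
    rw [act_inv, cc_inv, bar_act, hp, cc_inv, map_inv, rho_add]
    congr 1
    have h := dd_mul m (bar p)⁻¹ (bar p)
    rw [inv_mul_cancel, dd_one, inv_inv] at h
    have h2 := M_add_self (rho (bar p)⁻¹ (dd (rho (bar p) m) (bar p)))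
    calc rho (bar p)⁻¹ (dd (rho (bar p) m) (bar p))
        = (dd m (bar p)⁻¹ + rho (bar p)⁻¹ (dd (rho (bar p) m) (bar p)))
          + rho (bar p)⁻¹ (dd (rho (bar p) m) (bar p)) := by rw [← h, zero_add]
      _ = dd m (bar p)⁻¹ := by rw [add_assoc, h2, add_zero]
  · intro p q hp hq m
    rw [act_mul, cc_mul, bar_act, hp, hq, cc_mul, map_mul, dd_mul, rho_add]
    abel

/-- The group `E = F ⋈ M`. -/
@[ext] structure EE : Type where
  g : F
  m : M

namespace EE

instance : Mul EE := ⟨fun a b => ⟨a.g * act a.m b.g, rho (bar b.g)⁻¹ a.m + b.m⟩⟩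
instance : One EE := ⟨⟨1, 0⟩⟩
instance : Inv EE := ⟨fun a => ⟨act a.m a.g⁻¹, rho (bar a.g) a.m⟩⟩

@[simp] lemma mul_g (a b : EE) : (a * b).g = a.g * act a.m b.g := rfl
@[simp] lemma mul_m (a b : EE) : (a * b).m = rho (bar b.g)⁻¹ a.m + b.m := rfl
@[simp] lemma one_g : (1 : EE).g = 1 := rfl
@[simp] lemma one_m : (1 : EE).m = 0 := rfl
lemma inv_g (a : EE) : (a⁻¹).g = act a.m a.g⁻¹ := rfl
lemma inv_m (a : EE) : (a⁻¹).m = rho (bar a.g) a.m := rfl

instance : Group EE := Group.ofLeftAxioms
  (by
    intro a b c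
    apply EE.ext
    · simp only [mul_g, mul_m, act_mul, mul_assoc]
      congr 2
      rw [act_act]
    · simp only [mul_g, mul_m, map_mul, bar_act, mul_inv_rev, rho_mul, rho_add, add_assoc])
  (by
    intro a
    apply EE.ext
    · simp
    · simp)
  (by
    intro a
    apply EE.ext
    · simp only [mul_g, inv_g, inv_m, one_g]
      have h := act_mul a.m a.g⁻¹ a.g
      rw [inv_mul_cancel, act_one, map_inv, inv_inv] at h
      exact h.symm
    · simp only [mul_m, inv_m, one_m, rho_inv_apply]
      exact M_add_self _)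

/-- the action on the tree `F` -/
def ap (a : EE) (p : F) : F := a.g * act a.m p

lemma ap_mul (a b : EE) (p : F) : ap (a * b) p = ap a (ap b p) := by
  simp only [ap, mul_g, mul_m, act_mul, act_act, mul_assoc]

@[simp] lemma ap_one (p : F) : ap 1 p = p := by simp [ap]

/-- the `M`-component of the homomorphism `q` -/
def qM (a : EE) : M := cc a.g + rho (bar a.g) (jj a.m)

lemma bar_mul_g (a b : EE) : bar (a * b).g = bar a.g * bar b.g := by simp

lemma qM_mul (a b : EE) : qM (a * b) = qM a + rho (bar a.g) (qM b) := by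
  simp only [qM, mul_g, mul_m, map_mul, bar_act, cc_mul, cc_act, dd, jj_add, rho_add, rho_mul]
  have h := M_add_self (rho (bar a.g) (rho (bar b.g) (jj (rho (bar b.g)⁻¹ a.m))))
  calc _ = cc a.g + rho (bar a.g) (jj a.m) + (rho (bar a.g) (cc b.g) +
        rho (bar a.g) (rho (bar b.g) (jj b.m))) +
        (rho (bar a.g) (rho (bar b.g) (jj (rho (bar b.g)⁻¹ a.m))) +
        rho (bar a.g) (rho (bar b.g) (jj (rho (bar b.g)⁻¹ a.m)))) := by abel
    _ = _ := by rw [h, add_zero]

@[simp] lemma qM_one : qM 1 = 0 := by simp [qM]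

lemma mul_m_fst (a b : EE) : (a * b).m.1 = a.m.1 + b.m.1 := by
  rw [mul_m, Prod.fst_add, rho_fst]

end EE

/-- the group `G`, as a subgroup of `E × E` -/
def GS : Subgroup (EE × EE) where
  carrier := {x | bar x.1.g = bar x.2.g ∧ EE.qM x.1 = sw (EE.qM x.2)}
  mul_mem' := by
    rintro a b ⟨ha1, ha2⟩ ⟨hb1, hb2⟩
    refine ⟨?_, ?_⟩
    · rw [Prod.fst_mul, Prod.snd_mul, EE.bar_mul_g, EE.bar_mul_g, ha1, hb1]
    · rw [Prod.fst_mul, Prod.snd_mul, EE.qM_mul, EE.qM_mul, sw_add, sw_rho, ha2, hb2, ha1]
  one_mem' := by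
    refine ⟨rfl, ?_⟩
    simp
  inv_mem' := by
    rintro a ⟨ha1, ha2⟩
    have h1 : bar a.1⁻¹.g = (bar a.1.g)⁻¹ := by rw [EE.inv_g, bar_act, map_inv]
    have h2 : bar a.2⁻¹.g = (bar a.2.g)⁻¹ := by rw [EE.inv_g, bar_act, map_inv]
    have key : ∀ e : EE, EE.qM e⁻¹ = rho (bar e.g)⁻¹ (EE.qM e) := by
      intro e
      have h := EE.qM_mul e⁻¹ e
      rw [inv_mul_cancel, EE.qM_one, EE.inv_g, bar_act, map_inv] at h
      have h3 := M_add_self (rho (bar e.g)⁻¹ (EE.qM e))
      calc EE.qM e⁻¹ = (EE.qM e⁻¹ + rho (bar e.g)⁻¹ (EE.qM e)) + rho (bar e.g)⁻¹ (EE.qM e) := by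
            rw [add_assoc, h3, add_zero]
        _ = _ := by rw [← h, zero_add]
    refine ⟨?_, ?_⟩
    · rw [Prod.fst_inv, Prod.snd_inv, h1, h2, ha1]
    · rw [Prod.fst_inv, Prod.snd_inv, key, key, sw_rho, ha2, ha1]

end Pool.Agent.Helper23.NC
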