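import Mathlib
import Pool.Agent.Helper23.NC.Defs
import Pool.Agent.Helper23.Haagerup

set_option autoImplicit false

/-!
The action of `M` on `F` preserves reduced words, lengths and initial segments.
-/

namespace Pool.Agent.Helper23.NC

open FreeGroup Pool.Agent.Helper23.Haagerup

/-- image of a letter -/
def im (m : M) (x : Lt × Bool) : Lt × Bool :=
  (al (if x.2 = true then m else rho (FreeGroup.of (bl x.1)) m) x.1, x.2)

/-- section at a letter -/
def nx (m : M) (x : Lt × Bool) : M :=
  if x.2 = true then rho (FreeGroup.of (bl x.1))⁻¹ m else rho (FreeGroup.of (bl x.1)) m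

/-- action on words -/
def actL : M → List (Lt × Bool) → List (Lt × Bool)
  | _, [] => []
  | m, x :: w => im m x :: actL (nx m x) w

@[simp] lemma actL_nil (m : M) : actL m [] = [] := rfl
@[simp] lemma actL_cons (m : M) (x : Lt × Bool) (w : List (Lt × Bool)) :
    actL m (x :: w) = im m x :: actL (nx m x) w := rfl

lemma actL_length (w : List (Lt × Bool)) : ∀ m, (actL m w).length = w.length := by
  induction w with
  | nil => intro m; rfl
  | cons x w ih => intro m; simp [ih]

lemma actL_take (w : List (Lt × Bool)) : ∀ (m : M) (i : ℕ),
    (actL m w).take i = actL m (w.take i) := by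
  induction w with
  | nil => intro m i; simp
  | cons x w ih =>
    intro m i
    cases i with
    | zero => simp
    | succ i => simp [ih]

lemma mk_actL (w : List (Lt × Bool)) : ∀ m, FreeGroup.mk (actL m w) = act m (FreeGroup.mk w) := by
  induction w with
  | nil =>
    intro m
    show (1 : F) = act m 1
    simp
  | cons x w ih =>
    intro m
    obtain ⟨l, e⟩ := x
    have h1 : ∀ (y : Lt × Bool) (v : List (Lt × Bool)),
        FreeGroup.mk (y :: v) = FreeGroup.mk [y] * FreeGroup.mk v := by
      intro y v
      rw [FreeGroup.mul_mk]; rfl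
    rw [actL_cons, h1, ih, h1 (l, e) w, act_mul]
    have h2 : FreeGroup.mk [(l, true)] = FreeGroup.of l := rfl
    have h3 : FreeGroup.mk [(l, false)] = (FreeGroup.of l)⁻¹ := by
      rw [← h2, FreeGroup.inv_mk]; rfl
    have h4 : ∀ l' : Lt, FreeGroup.mk [(l', true)] = FreeGroup.of l' := fun _ => rfl
    have h5 : ∀ l' : Lt, FreeGroup.mk [(l', false)] = (FreeGroup.of l')⁻¹ := by
      intro l'
      rw [← h4, FreeGroup.inv_mk]; rfl
    cases e with
    | true =>
      rw [h2, act_of, bar_of]
      simp only [im, nx, if_true, h4]
    | false =>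
      rw [h3, act_inv, act_of, _root_.map_inv, bar_of, inv_inv]
      simp [im, nx, h5]

lemma bl_al (m : M) (l : Lt) : bl (al m l) = bl l := by
  cases l <;> rfl

lemma al_inj (m : M) {l l' : Lt} (h : al m l = al m l') : l = l' := by
  cases l with
  | none =>
    cases l' with
    | none => rfl
    | some j => simp at h
  | some i =>
    cases l' with
    | none => simp at h
    | some j => simpa using h

lemma im_adj (m : M) (x y : Lt × Bool) (h : x.1 = y.1 → x.2 = y.2) :
    (im m x).1 = (im (nx m x) y).1 → (im m x).2 = (im (nx m x) y).2 := by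
  intro h1
  obtain ⟨l, e⟩ := x
  obtain ⟨l', e'⟩ := y
  show e = e'
  by_contra hne
  have hb : bl l = bl l' := by
    have := congrArg bl h1
    simp only [im, bl_al] at this
    exact this
  cases e with
  | true =>
    have he' : e' = false := by
      cases e' with
      | true => exact absurd rfl hne
      | false => rfl
    subst he'
    simp only [im, nx, if_true, hb, Bool.false_eq_true, if_false, rho_apply_inv] at h1
    exact hne (h (al_inj m h1))
  | false =>
    have he' : e' = true := by
      cases e' with
      | true => rfl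
      | false => exact absurd rfl hne
    subst he'
    simp only [im, nx, if_true, Bool.false_eq_true, if_false] at h1
    exact hne (h (al_inj _ h1))

lemma actL_reduced (w : List (Lt × Bool)) : ∀ m, IsReduced w → IsReduced (actL m w) := by
  induction w with
  | nil => intro m _; simp
  | cons x w ih =>
    intro m hw
    cases w with
    | nil => simp
    | cons y w =>
      rw [isReduced_cons_cons] at hw
      rw [actL_cons, actL_cons, isReduced_cons_cons, ← actL_cons]
      exact ⟨im_adj m x y hw.1, ih _ hw.2⟩

lemma toWord_act (m : M) (p : F) : (act m p).toWord = actL m p.toWord := by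
  have h1 : act m p = FreeGroup.mk (actL m p.toWord) := by
    rw [mk_actL, FreeGroup.mk_toWord]
  rw [h1, FreeGroup.toWord_mk, (actL_reduced _ m isReduced_toWord).reduce_eq]

@[simp] lemma norm_act (m : M) (p : F) : (act m p).norm = p.norm := by
  rw [FreeGroup.norm, toWord_act, actL_length, FreeGroup.norm]

lemma pre_act (m : M) (i : ℕ) (p : F) : pre i (act m p) = act m (pre i p) := by
  rw [pre, toWord_act, actL_take, mk_actL, pre]

/-- splitting for the action of `E` on the tree -/
lemma split_EE (a b : EE) : ∃ i j : ℕ, i ≤ a.g.norm ∧ j ≤ a.g.norm ∧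
    pre i a.g = pre i (a * b).g ∧ EE.ap a (pre j b.g) = pre i a.g := by
  obtain ⟨i, j, h1, h2, h3, h4⟩ := cancel a.g (act a.m b.g)
  refine ⟨i, j, h1, h2, h3, ?_⟩
  rw [pre_act] at h4
  rw [EE.ap, h4, mul_inv_cancel_left]

end Pool.Agent.Helper23.NC
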