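import Mathlib

set_option autoImplicit false

/-!
An abstract criterion for rapid decay of a locally compact group acting on a countable set with
splittings and stabilisers of bounded Haar measure.
-/

namespace Pool.Agent.Helper23.NC

open MeasureTheory ENNReal

section cs

lemma cs_lint {α : Type} [MeasurableSpace α] (μ : Measure α) {f g : α → ℝ≥0∞}
    (hf : AEMeasurable f μ) (hg : AEMeasurable g μ) :
    (∫⁻ x, f x * g x ∂μ) ^ 2 ≤ (∫⁻ x, f x ^ 2 ∂μ) * (∫⁻ x, g x ^ 2 ∂μ) := by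
  have h := ENNReal.lintegral_mul_le_Lp_mul_Lq μ Real.HolderConjugate.two_two hf hg
  have e : ∀ a : ℝ≥0∞, (a ^ (1 / (2 : ℝ))) ^ 2 = a := by
    intro a
    rw [← ENNReal.rpow_natCast, ← ENNReal.rpow_mul]
    norm_num
  calc (∫⁻ x, f x * g x ∂μ) ^ 2
      ≤ ((∫⁻ x, f x ^ (2 : ℝ) ∂μ) ^ (1 / (2 : ℝ)) * (∫⁻ x, g x ^ (2 : ℝ) ∂μ) ^ (1 / (2 : ℝ))) ^ 2 :=
        pow_le_pow_left₀ bot_le h 2
    _ = (∫⁻ x, f x ^ (2 : ℝ) ∂μ) * (∫⁻ x, g x ^ (2 : ℝ) ∂μ) := by
        rw [mul_pow, e, e]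
    _ = _ := by
        simp only [ENNReal.rpow_two]

lemma cs_tsum {ι : Type} [Countable ι] (w N : ι → ℝ≥0∞) (h0 : ∀ i, w i ≠ 0)
    (ht : ∀ i, w i ≠ ⊤) :
    (∑' i, N i) ^ 2 ≤ (∑' i, (w i)⁻¹) * ∑' i, w i * (N i) ^ 2 := by
  let _ : MeasurableSpace ι := ⊤
  have h := cs_lint (Measure.count (α := ι)) (f := fun i => (w i)⁻¹ ^ (1 / (2 : ℝ)))
    (g := fun i => (w i) ^ (1 / (2 : ℝ)) * N i) (Measurable.of_discrete.aemeasurable)
    (Measurable.of_discrete.aemeasurable)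
  have e : ∀ a : ℝ≥0∞, (a ^ (1 / (2 : ℝ))) ^ 2 = a := by
    intro a
    rw [← ENNReal.rpow_natCast, ← ENNReal.rpow_mul]
    norm_num
  simp only [MeasureTheory.lintegral_count, mul_pow, e] at h
  have e2 : ∀ i, (w i)⁻¹ ^ (1 / (2 : ℝ)) * (w i ^ (1 / (2 : ℝ)) * N i) = N i := by
    intro i
    rw [← mul_assoc, ← ENNReal.mul_rpow_of_nonneg _ _ (by norm_num),
      ENNReal.inv_mul_cancel (h0 i) (ht i), ENNReal.one_rpow, one_mul]
  simp only [e2] at h
  exact h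

end cs

section crit

variable {G : Type} [Group G] [TopologicalSpace G] [IsTopologicalGroup G]
  [SecondCountableTopology G] [LocallyCompactSpace G] [MeasurableSpace G] [BorelSpace G]

open Classical in
/-- estimate for one type -/
lemma one_type (μ : Measure G) [μ.IsHaarMeasure] {Y : Type} [MeasurableSpace Y]
    [MeasurableSingletonClass Y] [Countable Y] (ap : G → Y → Y)
    (hap : ∀ y, Measurable (fun a => ap a y)) (P Q : G → Y) (hP : Measurable P)
    (hQ : Measurable Q) (S : ℝ≥0∞) (hS : ∀ y z, μ {a | ap a y = z} ≤ S)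
    (f ξ : G → ℝ≥0∞) (hf : Measurable f) (hξ : Measurable ξ) :
    ∫⁻ x, (∫⁻ y, (if P x = P y ∧ ap y (Q (y⁻¹ * x)) = P x then f y * ξ (y⁻¹ * x) else 0) ∂μ) ^ 2 ∂μ
      ≤ S * (∫⁻ y, f y ^ 2 ∂μ) * (∫⁻ y, ξ y ^ 2 ∂μ) := by
  have hYD : MeasurableSet {p : Y × Y | p.1 = p.2} := (Set.to_countable _).measurableSet
  have hap2 : Measurable (fun p : G × Y => ap p.1 p.2) :=
    measurable_from_prod_countable_left hap
  have hdiv : Measurable (fun p : G × G => p.2⁻¹ * p.1) := by fun_prop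
  -- measurability of the sets
  have hs1 : MeasurableSet {p : G × G | P p.1 = P p.2} :=
    (hP.comp measurable_fst).prodMk (hP.comp measurable_snd) hYD
  have hapQ : Measurable (fun p : G × G => ap p.2 (Q (p.2⁻¹ * p.1))) :=
    hap2.comp (measurable_snd.prodMk (hQ.comp hdiv))
  have hs2 : MeasurableSet {p : G × G | ap p.2 (Q (p.2⁻¹ * p.1)) = P p.1} :=
    hapQ.prodMk (hP.comp measurable_fst) hYD
  have hs3 : ∀ z : Y, MeasurableSet {p : G × G | ap p.2 (Q (p.2⁻¹ * p.1)) = z} := fun z =>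
    hapQ (measurableSet_singleton z)
  have hs4 : ∀ z : Y, MeasurableSet {p : G × G | ap p.1 (Q p.2) = z} := fun z =>
    (hap2.comp (measurable_fst.prodMk (hQ.comp measurable_snd))) (measurableSet_singleton z)
  set g1 : G → G → ℝ≥0∞ := fun x y => if P x = P y then f y else 0 with hg1
  set g2 : G → G → ℝ≥0∞ := fun x y =>
    if ap y (Q (y⁻¹ * x)) = P x then ξ (y⁻¹ * x) else 0 with hg2
  have mg1 : Measurable (fun p : G × G => g1 p.1 p.2) :=
    Measurable.ite hs1 (hf.comp measurable_snd) measurable_const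
  have mg2 : Measurable (fun p : G × G => g2 p.1 p.2) :=
    Measurable.ite hs2 (hξ.comp hdiv) measurable_const
  have step1 : ∀ x, (∫⁻ y, (if P x = P y ∧ ap y (Q (y⁻¹ * x)) = P x then f y * ξ (y⁻¹ * x)
      else 0) ∂μ) ^ 2 ≤ (∫⁻ y, g1 x y ^ 2 ∂μ) * (∫⁻ y, g2 x y ^ 2 ∂μ) := by
    intro x
    have h := cs_lint μ (f := g1 x) (g := g2 x)
      (mg1.comp (measurable_const.prodMk measurable_id)).aemeasurable
      (mg2.comp (measurable_const.prodMk measurable_id)).aemeasurable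
    refine le_trans (le_of_eq ?_) h
    congr 1
    refine lintegral_congr fun y => ?_
    simp only [hg1, hg2]
    by_cases c1 : P x = P y
    · by_cases c2 : ap y (Q (y⁻¹ * x)) = P x
      · simp only [c1, c2, true_and, if_true]
      · simp only [c2, and_false, if_false, mul_zero]
    · simp only [c1, false_and, if_false, zero_mul]
  refine le_trans (lintegral_mono step1) ?_
  have mK : Measurable (fun x => ∫⁻ y, g2 x y ^ 2 ∂μ) :=
    Measurable.lintegral_prod_right' (f := fun p : G × G => g2 p.1 p.2 ^ 2) (mg2.pow_const 2)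
  have step2 : ∫⁻ x, (∫⁻ y, g1 x y ^ 2 ∂μ) * (∫⁻ y, g2 x y ^ 2 ∂μ) ∂μ
      = ∫⁻ y', ∫⁻ x, g1 x y' ^ 2 * (∫⁻ y, g2 x y ^ 2 ∂μ) ∂μ ∂μ := by
    rw [lintegral_lintegral_swap]
    · refine lintegral_congr fun x => ?_
      rw [lintegral_mul_const]
      exact (mg1.comp (measurable_const.prodMk measurable_id)).pow_const 2
    · exact (((mg1.comp measurable_swap).pow_const 2).mul
        (mK.comp measurable_snd)).aemeasurable
  rw [step2]
  have step3 : ∀ y', ∫⁻ x, g1 x y' ^ 2 * (∫⁻ y, g2 x y ^ 2 ∂μ) ∂μ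
      ≤ f y' ^ 2 * (S * ∫⁻ y, ξ y ^ 2 ∂μ) := by
    intro y'
    calc ∫⁻ x, g1 x y' ^ 2 * (∫⁻ y, g2 x y ^ 2 ∂μ) ∂μ
        ≤ ∫⁻ x, f y' ^ 2 *
          (∫⁻ y, (if ap y (Q (y⁻¹ * x)) = P y' then ξ (y⁻¹ * x) ^ 2 else 0) ∂μ) ∂μ := by
          refine lintegral_mono fun x => ?_
          simp only [hg1, hg2]
          by_cases c1 : P x = P y'
          · simp only [c1, if_true]
            refine mul_le_mul_right ?_ _
            refine lintegral_mono fun y => ?_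
            split_ifs <;> simp
          · simp [c1]
      _ = f y' ^ 2 * ∫⁻ x,
          (∫⁻ y, (if ap y (Q (y⁻¹ * x)) = P y' then ξ (y⁻¹ * x) ^ 2 else 0) ∂μ) ∂μ := by
          rw [lintegral_const_mul]
          exact Measurable.lintegral_prod_right'
            (f := fun p : G × G => if ap p.2 (Q (p.2⁻¹ * p.1)) = P y' then ξ (p.2⁻¹ * p.1) ^ 2
              else 0) (Measurable.ite (hs3 _) ((hξ.comp hdiv).pow_const 2) measurable_const)
      _ = f y' ^ 2 * ∫⁻ y,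
          (∫⁻ x, (if ap y (Q (y⁻¹ * x)) = P y' then ξ (y⁻¹ * x) ^ 2 else 0) ∂μ) ∂μ := by
          rw [lintegral_lintegral_swap]
          exact (Measurable.ite (hs3 _) ((hξ.comp hdiv).pow_const 2)
            measurable_const).aemeasurable
      _ = f y' ^ 2 * ∫⁻ y, (∫⁻ b, (if ap y (Q b) = P y' then ξ b ^ 2 else 0) ∂μ) ∂μ := by
          congr 1
          refine lintegral_congr fun y => ?_
          exact lintegral_mul_left_eq_self (μ := μ)
            (fun b => if ap y (Q b) = P y' then ξ b ^ 2 else 0) y⁻¹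
      _ = f y' ^ 2 * ∫⁻ b, (∫⁻ y, (if ap y (Q b) = P y' then ξ b ^ 2 else 0) ∂μ) ∂μ := by
          rw [lintegral_lintegral_swap]
          exact (Measurable.ite (hs4 _) ((hξ.comp measurable_snd).pow_const 2)
            measurable_const).aemeasurable
      _ ≤ f y' ^ 2 * ∫⁻ b, S * ξ b ^ 2 ∂μ := by
          refine mul_le_mul_right ?_ _
          refine lintegral_mono fun b => ?_
          have hm : MeasurableSet {a : G | ap a (Q b) = P y'} :=
            hap (Q b) (measurableSet_singleton _)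
          calc ∫⁻ y, (if ap y (Q b) = P y' then ξ b ^ 2 else 0) ∂μ
              = ∫⁻ y, Set.indicator {a : G | ap a (Q b) = P y'} (fun _ => ξ b ^ 2) y ∂μ := by
                refine lintegral_congr fun y => ?_
                simp only [Set.indicator, Set.mem_ofPred_eq]
            _ = ξ b ^ 2 * μ {a : G | ap a (Q b) = P y'} := by
                rw [lintegral_indicator_const hm]
            _ ≤ S * ξ b ^ 2 := by
                rw [mul_comm]
                exact mul_le_mul_left (hS _ _) _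
      _ = f y' ^ 2 * (S * ∫⁻ y, ξ y ^ 2 ∂μ) := by
          rw [lintegral_const_mul _ (hξ.pow_const 2)]
  refine le_trans (lintegral_mono step3) ?_
  rw [lintegral_mul_const _ (hf.pow_const 2)]
  exact le_of_eq (by ring)

/-- the constant -/
noncomputable def C0 : ℝ≥0∞ := ∑' n : ℕ, (((n : ℝ≥0∞) + 1) ^ 2)⁻¹

lemma C0_ne_top : C0 ≠ ⊤ := by
  have h : ∀ n : ℕ, (((n : ℝ≥0∞) + 1) ^ 2)⁻¹ = ENNReal.ofReal (1 / ((n : ℝ) + 1) ^ 2) := by
    intro n
    have h1 : ((n : ℝ≥0∞) + 1) = ENNReal.ofReal ((n : ℝ) + 1) := by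
      rw [ENNReal.ofReal_add (by positivity) (by norm_num)]
      simp
    rw [h1, ← ENNReal.ofReal_pow (by positivity), ← ENNReal.ofReal_inv_of_pos (by positivity),
      one_div]
  have hs : Summable (fun n : ℕ => 1 / ((n : ℝ) + 1) ^ 2) := by
    have := (summable_nat_add_iff 1).mpr (Real.summable_one_div_nat_pow.mpr (by norm_num : 1 < 2))
    simpa using this
  unfold C0
  simp only [h]
  exact hs.tsum_ofReal_ne_top

open Classical in
theorem rd_lint (μ : Measure G) [μ.IsHaarMeasure] {Y : Type} [MeasurableSpace Y]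
    [MeasurableSingletonClass Y] [Countable Y] (ap : G → Y → Y)
    (hap : ∀ y, Measurable (fun a => ap a y)) (L : G → ℕ) (hL : Measurable L)
    {τ : Type} (T : ℕ → Finset τ) (d : ℕ) (hT : ∀ r, (T r).card ≤ (r + 1) ^ d)
    (P Q : τ → G → Y) (hP : ∀ t, Measurable (P t)) (hQ : ∀ t, Measurable (Q t))
    (split : ∀ a b, ∃ t ∈ T (L a), ap a (Q t b) = P t a ∧ P t (a * b) = P t a)
    (S : ℝ≥0∞) (hS : ∀ y z, μ {a | ap a y = z} ≤ S)
    (f ξ : G → ℝ≥0∞) (hf : Measurable f) (hξ : Measurable ξ) :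
    ∫⁻ x, (∫⁻ y, f y * ξ (y⁻¹ * x) ∂μ) ^ 2 ∂μ
      ≤ C0 * S * (∫⁻ y, (f y * ((L y : ℝ≥0∞) + 1) ^ (d + 1)) ^ 2 ∂μ) * (∫⁻ y, ξ y ^ 2 ∂μ) := by
  have hYD : MeasurableSet {p : Y × Y | p.1 = p.2} := (Set.to_countable _).measurableSet
  have hap2 : Measurable (fun p : G × Y => ap p.1 p.2) :=
    measurable_from_prod_countable_left hap
  have hdiv : Measurable (fun p : G × G => p.2⁻¹ * p.1) := by fun_prop
  let I := (n : ℕ) × {t // t ∈ T n}
  let w : I → ℝ≥0∞ := fun i => ((i.1 : ℝ≥0∞) + 1) ^ (d + 2)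
  let fn : ℕ → G → ℝ≥0∞ := fun n y => if L y = n then f y else 0
  have mfn : ∀ n, Measurable (fn n) := fun n =>
    Measurable.ite (hL (measurableSet_singleton n)) hf measurable_const
  let kern : I → G → G → ℝ≥0∞ := fun i x y =>
    if P i.2.1 x = P i.2.1 y ∧ ap y (Q i.2.1 (y⁻¹ * x)) = P i.2.1 x
      then fn i.1 y * ξ (y⁻¹ * x) else 0
  have mkern : ∀ i, Measurable (fun p : G × G => kern i p.1 p.2) := by
    intro i
    have h1 : MeasurableSet {p : G × G | P i.2.1 p.1 = P i.2.1 p.2} :=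
      ((hP _).comp measurable_fst).prodMk ((hP _).comp measurable_snd) hYD
    have h2 : Measurable (fun p : G × G => ap p.2 (Q i.2.1 (p.2⁻¹ * p.1))) :=
      hap2.comp (measurable_snd.prodMk ((hQ _).comp hdiv))
    have h3 : MeasurableSet {p : G × G | ap p.2 (Q i.2.1 (p.2⁻¹ * p.1)) = P i.2.1 p.1} :=
      h2.prodMk ((hP _).comp measurable_fst) hYD
    exact Measurable.ite (h1.inter h3) (((mfn _).comp measurable_snd).mul (hξ.comp hdiv))
      measurable_const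
  let N : I → G → ℝ≥0∞ := fun i x => ∫⁻ y, kern i x y ∂μ
  have mN : ∀ i, Measurable (N i) := fun i => Measurable.lintegral_prod_right' (mkern i)
  have hw0 : ∀ i, w i ≠ 0 := by
    intro i
    simp [w]
  have hwt : ∀ i, w i ≠ ⊤ := by
    intro i
    simp only [w]
    exact ENNReal.pow_ne_top (by simp)
  -- pointwise bound
  have hpt : ∀ x, ∫⁻ y, f y * ξ (y⁻¹ * x) ∂μ ≤ ∑' i, N i x := by
    intro x
    calc ∫⁻ y, f y * ξ (y⁻¹ * x) ∂μ ≤ ∫⁻ y, ∑' i, kern i x y ∂μ := by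
          refine lintegral_mono fun y => ?_
          obtain ⟨t, ht, h1, h2⟩ := split y (y⁻¹ * x)
          rw [mul_inv_cancel_left] at h2
          have h3 := ENNReal.le_tsum (f := fun i => kern i x y) (⟨L y, t, ht⟩ : I)
          refine le_trans (le_of_eq ?_) h3
          have h4 : P t x = P t y ∧ ap y (Q t (y⁻¹ * x)) = P t x := ⟨h2, by rw [h1, h2]⟩
          simp only [kern, fn]
          rw [if_pos h4, if_pos trivial]
      _ = ∑' i, N i x := by
          rw [lintegral_tsum]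
          intro i
          exact ((mkern i).comp (measurable_const.prodMk measurable_id)).aemeasurable
  have hsq : ∀ x, (∫⁻ y, f y * ξ (y⁻¹ * x) ∂μ) ^ 2 ≤ (∑' i, (w i)⁻¹) * ∑' i, w i * (N i x) ^ 2 :=
    fun x => (pow_le_pow_left₀ bot_le (hpt x) 2).trans (cs_tsum w (fun i => N i x) hw0 hwt)
  have hcardE : ∀ n : ℕ, ((T n).card : ℝ≥0∞) ≤ ((n : ℝ≥0∞) + 1) ^ d := by
    intro n
    have := hT n
    calc ((T n).card : ℝ≥0∞) ≤ (((n + 1) ^ d : ℕ) : ℝ≥0∞) := by exact_mod_cast this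
      _ = _ := by push_cast; rfl
  have hW : (∑' i, (w i)⁻¹) ≤ C0 := by
    rw [ENNReal.tsum_sigma (fun (n : ℕ) (_ : {t // t ∈ T n}) => (((n : ℝ≥0∞) + 1) ^ (d + 2))⁻¹)]
    unfold C0
    refine ENNReal.tsum_le_tsum fun n => ?_
    rw [tsum_fintype, Finset.sum_const, Finset.card_univ, Fintype.card_coe, nsmul_eq_mul]
    have h0 : ((n : ℝ≥0∞) + 1) ^ d ≠ 0 := by simp
    have ht : ((n : ℝ≥0∞) + 1) ^ d ≠ ⊤ := ENNReal.pow_ne_top (by simp)
    calc ((T n).card : ℝ≥0∞) * (((n : ℝ≥0∞) + 1) ^ (d + 2))⁻¹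
        ≤ ((n : ℝ≥0∞) + 1) ^ d * (((n : ℝ≥0∞) + 1) ^ (d + 2))⁻¹ :=
          mul_le_mul_left (hcardE n) _
      _ = (((n : ℝ≥0∞) + 1) ^ 2)⁻¹ := by
          rw [pow_add, ENNReal.mul_inv (Or.inl h0) (Or.inl ht), ← mul_assoc,
            ENNReal.mul_inv_cancel h0 ht, one_mul]
  have hNi : ∀ i : I, ∫⁻ x, (N i x) ^ 2 ∂μ ≤
      S * (∫⁻ y, fn i.1 y ^ 2 ∂μ) * (∫⁻ y, ξ y ^ 2 ∂μ) := by
    intro i
    exact one_type μ ap hap (P i.2.1) (Q i.2.1) (hP _) (hQ _) S hS (fn i.1) ξ (mfn _) hξ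
  calc ∫⁻ x, (∫⁻ y, f y * ξ (y⁻¹ * x) ∂μ) ^ 2 ∂μ
      ≤ ∫⁻ x, C0 * ∑' i, w i * (N i x) ^ 2 ∂μ := by
        refine lintegral_mono fun x => (hsq x).trans ?_
        exact mul_le_mul_left hW _
    _ = C0 * ∑' i, w i * ∫⁻ x, (N i x) ^ 2 ∂μ := by
        rw [lintegral_const_mul' _ _ C0_ne_top, lintegral_tsum]
        · congr 1
          refine tsum_congr fun i => ?_
          rw [lintegral_const_mul' _ _ (hwt i)]
        · intro i
          exact (((mN i).pow_const 2).const_mul _).aemeasurable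
    _ ≤ C0 * ∑' i : I, w i * (S * (∫⁻ y, fn i.1 y ^ 2 ∂μ) * (∫⁻ y, ξ y ^ 2 ∂μ)) := by
        refine mul_le_mul_right ?_ _
        refine ENNReal.tsum_le_tsum fun i => ?_
        exact mul_le_mul_right (hNi i) _
    _ = C0 * ∑' n : ℕ, ((T n).card : ℝ≥0∞) * (((n : ℝ≥0∞) + 1) ^ (d + 2) *
          (S * (∫⁻ y, fn n y ^ 2 ∂μ) * (∫⁻ y, ξ y ^ 2 ∂μ))) := by
        rw [ENNReal.tsum_sigma (fun (n : ℕ) (_ : {t // t ∈ T n}) =>
          (((n : ℝ≥0∞) + 1) ^ (d + 2) * (S * (∫⁻ y, fn n y ^ 2 ∂μ) * (∫⁻ y, ξ y ^ 2 ∂μ))))]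
        congr 1
        refine tsum_congr fun n => ?_
        rw [tsum_fintype, Finset.sum_const, Finset.card_univ, Fintype.card_coe, nsmul_eq_mul]
    _ ≤ C0 * ∑' n : ℕ, (((n : ℝ≥0∞) + 1) ^ (d + 1)) ^ 2 * (∫⁻ y, fn n y ^ 2 ∂μ) *
          (S * (∫⁻ y, ξ y ^ 2 ∂μ)) := by
        refine mul_le_mul_right ?_ _
        refine ENNReal.tsum_le_tsum fun n => ?_
        refine (mul_le_mul_left (hcardE n) _).trans (le_of_eq ?_)
        ring
    _ = C0 * ((∑' n : ℕ, ∫⁻ y, (((n : ℝ≥0∞) + 1) ^ (d + 1)) ^ 2 * fn n y ^ 2 ∂μ) *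
          (S * (∫⁻ y, ξ y ^ 2 ∂μ))) := by
        rw [ENNReal.tsum_mul_right]
        congr 3
        funext n
        rw [lintegral_const_mul _ ((mfn n).pow_const 2)]
    _ = C0 * ((∫⁻ y, ∑' n : ℕ, (((n : ℝ≥0∞) + 1) ^ (d + 1)) ^ 2 * fn n y ^ 2 ∂μ) *
          (S * (∫⁻ y, ξ y ^ 2 ∂μ))) := by
        rw [lintegral_tsum]
        intro n
        exact (((mfn n).pow_const 2).const_mul _).aemeasurable
    _ = C0 * ((∫⁻ y, (f y * ((L y : ℝ≥0∞) + 1) ^ (d + 1)) ^ 2 ∂μ) *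
          (S * (∫⁻ y, ξ y ^ 2 ∂μ))) := by
        congr 2
        refine lintegral_congr fun y => ?_
        rw [tsum_eq_single (L y)]
        · simp only [fn, if_true]
          ring
        · intro n hn
          simp only [fn]
          rw [if_neg (Ne.symm hn)]
          simp
    _ = _ := by ring

theorem rd_eLp (μ : Measure G) [μ.IsHaarMeasure] {Y : Type} [MeasurableSpace Y]
    [MeasurableSingletonClass Y] [Countable Y] (ap : G → Y → Y)
    (hap : ∀ y, Measurable (fun a => ap a y)) (L : G → ℕ) (hL : Measurable L)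
    {τ : Type} (T : ℕ → Finset τ) (d : ℕ) (hT : ∀ r, (T r).card ≤ (r + 1) ^ d)
    (P Q : τ → G → Y) (hP : ∀ t, Measurable (P t)) (hQ : ∀ t, Measurable (Q t))
    (split : ∀ a b, ∃ t ∈ T (L a), ap a (Q t b) = P t a ∧ P t (a * b) = P t a)
    (S : ℝ≥0∞) (hSt : S ≠ ⊤) (hS : ∀ y z, μ {a | ap a y = z} ≤ S) :
    ∃ C s : ℝ, 0 ≤ C ∧ 0 ≤ s ∧ ∀ f ξ : G → ℂ, Continuous f → HasCompactSupport f →
      Continuous ξ → HasCompactSupport ξ →
        eLpNorm (fun x => ∫ y, f y * ξ (y⁻¹ * x) ∂μ) 2 μ ≤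
          ENNReal.ofReal C * eLpNorm (fun g => f g * (((1 + (L g : ℝ)) ^ s : ℝ) : ℂ)) 2 μ *
            eLpNorm ξ 2 μ := by
  have hCt : C0 * S ≠ ⊤ := ENNReal.mul_ne_top C0_ne_top hSt
  refine ⟨Real.sqrt (C0 * S).toReal, (d + 1 : ℕ), Real.sqrt_nonneg _, by positivity, ?_⟩
  intro f ξ hf _ hξ _
  have key := rd_lint μ ap hap L hL T d hT P Q hP hQ split S hS (fun y => ‖f y‖ₑ)
    (fun y => ‖ξ y‖ₑ) hf.measurable.enorm hξ.measurable.enorm
  have e2 : ∀ h : G → ℂ, eLpNorm h 2 μ = (∫⁻ x, ‖h x‖ₑ ^ 2 ∂μ) ^ (1 / (2 : ℝ)) := by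
    intro h
    rw [eLpNorm_eq_lintegral_rpow_enorm_toReal (by norm_num) (by norm_num)]
    simp
  rw [e2, e2, e2]
  have hC : ENNReal.ofReal (Real.sqrt (C0 * S).toReal) = (C0 * S) ^ (1 / (2 : ℝ)) := by
    rw [Real.sqrt_eq_rpow, ← ENNReal.ofReal_rpow_of_nonneg ENNReal.toReal_nonneg (by norm_num),
      ENNReal.ofReal_toReal hCt]
  rw [hC, ← ENNReal.mul_rpow_of_nonneg _ _ (by norm_num),
    ← ENNReal.mul_rpow_of_nonneg _ _ (by norm_num)]
  refine ENNReal.rpow_le_rpow ?_ (by norm_num)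
  refine le_trans (lintegral_mono fun x => ?_) (key.trans (le_of_eq ?_))
  · refine pow_le_pow_left₀ bot_le ?_ 2
    refine (enorm_integral_le_lintegral_enorm _).trans (le_of_eq ?_)
    refine lintegral_congr fun y => ?_
    rw [enorm_mul]
  · congr 2
    refine lintegral_congr fun y => ?_
    congr 1
    rw [enorm_mul]
    congr 1
    rw [Real.rpow_natCast, ← ofReal_norm, Complex.norm_real, Real.norm_of_nonneg
      (by positivity), ENNReal.ofReal_pow (by positivity), ENNReal.ofReal_add (by norm_num)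
      (by positivity)]
    simp [add_comm]

end crit

end Pool.Agent.Helper23.NC
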