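import Mathlib
import Pool.Agent.Helper23.NC.Defs

set_option autoImplicit false

/-!
Topology on `E`, on `G` and the closed normal cocompact subgroup `H`.
-/

namespace Pool.Agent.Helper23.NC

instance : TopologicalSpace (FreeGroup Lt) := ⊥
instance : DiscreteTopology (FreeGroup Lt) := ⟨rfl⟩
instance : TopologicalSpace (FreeGroup Bool) := ⊥
instance : DiscreteTopology (FreeGroup Bool) := ⟨rfl⟩

instance : Countable (FreeGroup Lt) := by
  unfold FreeGroup
  infer_instance

lemma cont_bM : Continuous (bM : M → M) := by
  show Continuous fun m : M => ((m.1, fun h => m.2.1 (h - 1), fun h => m.2.2 (h - 1)) : M)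
  fun_prop

lemma cont_bMs : Continuous (bM.symm : M → M) := by
  show Continuous fun m : M => ((m.1, fun h => m.2.1 (h + 1), fun h => m.2.2 (h + 1)) : M)
  fun_prop

lemma cont_cFun : Continuous cFun := by
  unfold cFun
  refine continuous_fst.prodMk (Continuous.prodMk ?_ ?_)
  · refine continuous_pi fun h => ?_
    split_ifs
    · fun_prop
    · fun_prop
  · refine continuous_pi fun h => ?_
    split_ifs
    · fun_prop
    · fun_prop

lemma rho_b_inv (m : M) : rho (FreeGroup.of true)⁻¹ m = bM.symm m := by
  apply bM.injective
  rw [← rho_b, rho_apply_inv]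
  simp

lemma rho_c_inv (m : M) : rho (FreeGroup.of false)⁻¹ m = cM m := by
  have h : cM (cM m) = m := cFun_cFun m
  calc rho (FreeGroup.of false)⁻¹ m = rho (FreeGroup.of false)⁻¹ (cM (cM m)) := by rw [h]
    _ = cM m := by rw [← rho_c (cM m), rho_inv_apply]

lemma cont_rho (r : Fb) : Continuous (rho r) := by
  have h : Continuous (rho r) ∧ Continuous (rho r⁻¹) := by
    refine FG_induction (C := fun r => Continuous (rho r) ∧ Continuous (rho r⁻¹)) ?_ ?_ ?_ ?_ r
    · have h1 : rho 1 = id := by funext m; simp
      rw [inv_one, h1]
      exact ⟨continuous_id, continuous_id⟩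
    · intro i
      cases i
      · have h1 : rho (FreeGroup.of false) = cFun := by funext m; rw [rho_c]; rfl
        have h2 : rho (FreeGroup.of false)⁻¹ = cFun := by funext m; rw [rho_c_inv]; rfl
        rw [h1, h2]
        exact ⟨cont_cFun, cont_cFun⟩
      · have h1 : rho (FreeGroup.of true) = bM := by funext m; rw [rho_b]
        have h2 : rho (FreeGroup.of true)⁻¹ = bM.symm := by funext m; rw [rho_b_inv]
        rw [h1, h2]
        exact ⟨cont_bM, cont_bMs⟩
    · intro p hp
      rw [inv_inv]
      exact ⟨hp.2, hp.1⟩
    · intro p q hp hq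
      have h1 : rho (p * q) = rho p ∘ rho q := by funext m; exact rho_mul p q m
      have h2 : rho (p * q)⁻¹ = rho q⁻¹ ∘ rho p⁻¹ := by
        funext m
        rw [mul_inv_rev]
        exact rho_mul _ _ m
      rw [h1, h2]
      exact ⟨hp.1.comp hq.1, hq.2.comp hp.2⟩
  exact h.1

lemma cont_chi : Continuous chi := by
  unfold chi
  fun_prop

lemma cont_act (p : F) : Continuous (fun m : M => act m p) := by
  refine FG_induction (C := fun p => Continuous (fun m : M => act m p)) ?_ ?_ ?_ ?_ p
  · simp only [act_one]
    exact continuous_const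
  · intro l
    simp only [act_of, al]
    have h : Continuous (fun x : ZMod 2 => (FreeGroup.of (l.map (fun i => i + x)) : F)) :=
      continuous_of_discreteTopology
    exact h.comp cont_chi
  · intro p hp
    simp only [act_inv]
    have h : Continuous (fun x : F => x⁻¹) := continuous_of_discreteTopology
    exact h.comp (hp.comp (cont_rho _))
  · intro p q hp hq
    simp only [act_mul]
    have h : Continuous (fun x : F × F => x.1 * x.2) := continuous_of_discreteTopology
    exact h.comp (hp.prodMk (hq.comp (cont_rho _)))

lemma cont_act2 : Continuous (fun p : M × F => act p.1 p.2) :=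
  continuous_prod_of_discrete_right.mpr fun b => cont_act b

lemma cont_rho2 : Continuous (fun p : M × F => rho (bar p.2) p.1) :=
  continuous_prod_of_discrete_right.mpr fun b => cont_rho (bar b)

lemma cont_rho3 : Continuous (fun p : M × F => rho (bar p.2)⁻¹ p.1) :=
  continuous_prod_of_discrete_right.mpr fun b => cont_rho (bar b)⁻¹

instance : TopologicalSpace EE := TopologicalSpace.induced (fun a => (a.g, a.m)) inferInstance

lemma cont_pair : Continuous (fun a : EE => (a.g, a.m)) := continuous_induced_dom

lemma cont_g : Continuous (fun a : EE => a.g) := continuous_fst.comp cont_pair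
lemma cont_m : Continuous (fun a : EE => a.m) := continuous_snd.comp cont_pair

lemma cont_mk {X : Type} [TopologicalSpace X] {u : X → F} {v : X → M} (hu : Continuous u)
    (hv : Continuous v) : Continuous (fun x => (⟨u x, v x⟩ : EE)) :=
  continuous_induced_rng.mpr (hu.prodMk hv)

/-- the homeomorphism with the product -/
def homeo : EE ≃ₜ F × M where
  toFun a := (a.g, a.m)
  invFun p := ⟨p.1, p.2⟩
  left_inv _ := rfl
  right_inv _ := rfl
  continuous_toFun := cont_pair
  continuous_invFun := cont_mk continuous_fst continuous_snd

lemma cont_mul_F : Continuous (fun p : F × F => p.1 * p.2) := continuous_of_discreteTopology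
lemma cont_inv_F : Continuous (fun p : F => p⁻¹) := continuous_of_discreteTopology

instance : IsTopologicalGroup EE where
  continuous_mul := by
    have h1 : Continuous (fun p : EE × EE => p.1.g * act p.1.m p.2.g) :=
      cont_mul_F.comp ((cont_g.comp continuous_fst).prodMk
        (cont_act2.comp ((cont_m.comp continuous_fst).prodMk (cont_g.comp continuous_snd))))
    have h2 : Continuous (fun p : EE × EE => rho (bar p.2.g)⁻¹ p.1.m + p.2.m) :=
      (cont_rho3.comp ((cont_m.comp continuous_fst).prodMk (cont_g.comp continuous_snd))).add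
        (cont_m.comp continuous_snd)
    exact cont_mk h1 h2
  continuous_inv := by
    have h1 : Continuous (fun a : EE => act a.m a.g⁻¹) :=
      cont_act2.comp (cont_m.prodMk (cont_inv_F.comp cont_g))
    have h2 : Continuous (fun a : EE => rho (bar a.g) a.m) :=
      cont_rho2.comp (cont_m.prodMk cont_g)
    exact cont_mk h1 h2

instance : LocallyCompactSpace EE := homeo.isClosedEmbedding.locallyCompactSpace

instance : T2Space EE := homeo.symm.t2Space

instance : SecondCountableTopology EE := homeo.isEmbedding.secondCountableTopology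

lemma cont_ap (p : F) : Continuous (fun a : EE => EE.ap a p) := by
  unfold EE.ap
  exact cont_mul_F.comp (cont_g.prodMk ((cont_act p).comp cont_m))

lemma cont_jj : Continuous jj := by
  unfold jj
  refine continuous_fst.prodMk (Continuous.prodMk ?_ ?_)
  · refine continuous_pi fun h => ?_
    split_ifs
    · fun_prop
    · fun_prop
  · fun_prop

lemma cont_sw : Continuous sw := by
  unfold sw
  fun_prop

lemma cont_qM : Continuous EE.qM := by
  unfold EE.qM
  have h1 : Continuous (fun a : EE => cc a.g) := by
    have : Continuous (fun p : F => cc p) := continuous_of_discreteTopology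
    exact this.comp cont_g
  have h2 : Continuous (fun a : EE => rho (bar a.g) (jj a.m)) :=
    cont_rho2.comp ((cont_jj.comp cont_m).prodMk cont_g)
  exact h1.add h2

lemma GS_closed : IsClosed (GS : Set (EE × EE)) := by
  have h1 : Continuous (fun x : EE × EE => bar x.1.g) := by
    have : Continuous (fun p : F => bar p) := continuous_of_discreteTopology
    exact this.comp (cont_g.comp continuous_fst)
  have h2 : Continuous (fun x : EE × EE => bar x.2.g) := by
    have : Continuous (fun p : F => bar p) := continuous_of_discreteTopology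
    exact this.comp (cont_g.comp continuous_snd)
  exact (isClosed_eq h1 h2).inter (isClosed_eq (cont_qM.comp continuous_fst)
    (cont_sw.comp (cont_qM.comp continuous_snd)))

/-- the group `G` -/
abbrev GT : Type := ↥GS

instance : LocallyCompactSpace GT := GS_closed.isClosedEmbedding_subtypeVal.locallyCompactSpace

instance : SecondCountableTopology GT := TopologicalSpace.Subtype.secondCountableTopology _

instance : MeasurableSpace GT := borel GT
instance : BorelSpace GT := ⟨rfl⟩

/-- the `K`-component -/
def piK : GT →* Multiplicative Sq where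
  toFun x := Multiplicative.ofAdd x.1.1.m.1
  map_one' := rfl
  map_mul' x y := by
    show Multiplicative.ofAdd (x.1.1 * y.1.1).m.1 = _
    rw [EE.mul_m_fst]; rfl

/-- the normal cocompact subgroup -/
def HS : Subgroup GT := piK.ker

lemma mem_HS (x : GT) : x ∈ HS ↔ x.1.1.m.1 = 0 := by
  unfold HS
  rw [MonoidHom.mem_ker]
  exact Iff.rfl

instance : HS.Normal := by unfold HS; infer_instance

lemma HS_closed : IsClosed (HS : Set GT) := by
  have h : (HS : Set GT) = {x | x.1.1.m.1 = 0} := by
    ext x
    exact mem_HS x
  rw [h]
  refine isClosed_eq ?_ continuous_const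
  exact continuous_fst.comp (cont_m.comp (continuous_fst.comp continuous_subtype_val))

/-- the compact complement -/
def kk (k : Sq) : GT := ⟨(⟨1, (k, 0, 0)⟩, ⟨1, (k, 0, 0)⟩), by
  refine ⟨rfl, ?_⟩
  simp only [EE.qM, map_one, cc_one, rho_one, zero_add]
  refine Prod.ext rfl (Prod.ext ?_ ?_)
  · funext h
    simp [jj, sw]
  · funext h
    simp [jj, sw]⟩

lemma cont_kk : Continuous kk := by
  refine Continuous.subtype_mk ?_ _
  have h : Continuous (fun k : Sq => (⟨1, (k, 0, 0)⟩ : EE)) :=
    cont_mk continuous_const (by fun_prop)
  exact h.prodMk h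

instance : CompactSpace (GT ⧸ HS) := by
  constructor
  have e : (Set.univ : Set (GT ⧸ HS)) = (fun k => (QuotientGroup.mk (kk k) : GT ⧸ HS)) '' Set.univ := by
    symm
    rw [Set.eq_univ_iff_forall]
    intro x
    induction x using QuotientGroup.induction_on with
    | H a =>
      refine ⟨a.1.1.m.1, trivial, ?_⟩
      simp only
      rw [QuotientGroup.eq]
      show piK _ = 1
      rw [map_mul, map_inv]
      show (piK (kk a.1.1.m.1))⁻¹ * piK a = 1
      rw [inv_mul_eq_one]
      rfl
  rw [e]
  exact isCompact_univ.image (QuotientGroup.continuous_mk.comp cont_kk)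

/-- action on pairs -/
def aq (a : GT) (y : F × F) : F × F := (EE.ap a.1.1 y.1, EE.ap a.1.2 y.2)

lemma aq_mul (a b : GT) (y : F × F) : aq (a * b) y = aq a (aq b y) := by
  unfold aq
  rw [Subgroup.coe_mul, Prod.fst_mul, Prod.snd_mul, EE.ap_mul, EE.ap_mul]

@[simp] lemma aq_one (y : F × F) : aq 1 y = y := by
  unfold aq
  simp

lemma cont_aq (y : F × F) : Continuous (fun a => aq a y) := by
  unfold aq
  exact ((cont_ap _).comp (continuous_fst.comp continuous_subtype_val)).prodMk
    ((cont_ap _).comp (continuous_snd.comp continuous_subtype_val))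

/-- base orbit -/
def orb (a : GT) : F × F := (a.1.1.g, a.1.2.g)

lemma aq_base (a : GT) : aq a 1 = orb a := by
  unfold aq orb EE.ap
  simp

lemma cont_orb : Continuous orb := by
  have : orb = fun a => aq a 1 := by funext a; exact (aq_base a).symm
  rw [this]
  exact cont_aq 1

lemma ball_finite (R : ℕ) : {p : F | p.norm ≤ R}.Finite := by
  have h : Set.InjOn FreeGroup.toWord {p : F | p.norm ≤ R} :=
    fun a _ b _ h => FreeGroup.toWord_injective h
  refine Set.Finite.of_finite_image ?_ h
  refine (List.finite_length_le (Lt × Bool) R).subset ?_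
  rintro _ ⟨p, hp, rfl⟩
  exact hp

lemma ball_compact (R : ℕ) : IsCompact {a : GT | (orb a).1.norm ≤ R ∧ (orb a).2.norm ≤ R} := by
  have h1 : IsCompact {a : EE | a.g.norm ≤ R} := by
    have : {a : EE | a.g.norm ≤ R} = homeo ⁻¹' ({p : F | p.norm ≤ R} ×ˢ Set.univ) := by
      ext a
      simp [homeo]
    rw [this, homeo.isCompact_preimage]
    exact (ball_finite R).isCompact.prod isCompact_univ
  have h2 := h1.prod h1
  have h3 := GS_closed.isClosedEmbedding_subtypeVal.isCompact_preimage h2
  exact h3

end Pool.Agent.Helper23.NC
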