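import Mathlib
import Pool.Agent.Helper23.NC.TopE

set_option autoImplicit false

/-!
Closed form of the action of `Fb` on `M`, and the flip lemma.
-/

namespace Pool.Agent.Helper23.NC

/-- contribution of the list of heights -/
def cs (l : List ℤ) (g : ℤ → ZMod 2) (h : ℤ) : ZMod 2 :=
  (l.map (fun s => if s < h then g (h - s) else 0)).sum

lemma cs_nil (g : ℤ → ZMod 2) (h : ℤ) : cs [] g h = 0 := rfl

lemma cs_cons (s : ℤ) (l : List ℤ) (g : ℤ → ZMod 2) (h : ℤ) :
    cs (s :: l) g h = (if s < h then g (h - s) else 0) + cs l g h := by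
  simp [cs]

lemma cs_shift (l : List ℤ) (g : ℤ → ZMod 2) (h t : ℤ) :
    cs (l.map (fun s => s + t)) g h = cs l g (h - t) := by
  unfold cs
  rw [List.map_map]
  congr 1
  apply List.map_congr_left
  intro s _
  simp only [Function.comp]
  have e : (s + t < h) ↔ (s < h - t) := by constructor <;> intro h <;> linarith
  simp only [e]
  have e2 : h - (s + t) = h - t - s := by ring
  rw [e2]

lemma cs_add (l : List ℤ) (g g' : ℤ → ZMod 2) (h : ℤ) :
    cs l (fun t => g t + g' t) h = cs l g h + cs l g' h := by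
  induction l with
  | nil => simp [cs]
  | cons s l ih =>
    rw [cs_cons, cs_cons, cs_cons, ih]
    split_ifs
    · ring
    · ring

lemma cs_const (l : List ℤ) (c : ZMod 2) (h : ℤ) :
    cs l (fun _ => c) h = cs l (fun _ => 1) h * c := by
  induction l with
  | nil => simp [cs]
  | cons s l ih =>
    rw [cs_cons, cs_cons, ih]
    split_ifs
    · ring
    · ring

/-- the two properties of the closed form -/
def Form (r : Fb) (n : ℤ) (l : List ℤ) : Prop :=
  ∀ m : M, (∀ h, (rho r m).2.1 h + (rho r m).2.2 h = m.2.1 (h - n) + m.2.2 (h - n)) ∧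
    ∀ h, (rho r m).2.1 h = m.2.1 (h - n) + (cs l (fun _ => 1) h * (m.2.1 (h - n) + m.2.2 (h - n))
      + cs l m.1 h)

lemma form_one : Form 1 0 [] := by
  intro m
  refine ⟨fun h => by simp, fun h => by simp [cs_nil]⟩

lemma form_b {r : Fb} {n : ℤ} {l : List ℤ} (H : Form r n l) :
    Form (FreeGroup.of true * r) (n + 1) (l.map (fun s => s + 1)) := by
  intro m
  have h1 : rho (FreeGroup.of true * r) m = bM (rho r m) := by rw [rho_mul, rho_b]
  rw [h1]
  refine ⟨fun h => ?_, fun h => ?_⟩
  · have h2 := (H m).1 (h - 1)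
    show (rho r m).2.1 (h - 1) + (rho r m).2.2 (h - 1) = _
    rw [h2]
    congr 2 <;> ring_nf
  · have h2 := (H m).2 (h - 1)
    show (rho r m).2.1 (h - 1) = _
    rw [h2, cs_shift, cs_shift]
    have e : h - 1 - n = h - (n + 1) := by ring
    rw [e]

lemma form_bi {r : Fb} {n : ℤ} {l : List ℤ} (H : Form r n l) :
    Form ((FreeGroup.of true)⁻¹ * r) (n - 1) (l.map (fun s => s + (-1))) := by
  intro m
  have h1 : rho ((FreeGroup.of true)⁻¹ * r) m = bM.symm (rho r m) := by rw [rho_mul, rho_b_inv]
  rw [h1]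
  refine ⟨fun h => ?_, fun h => ?_⟩
  · have h2 := (H m).1 (h + 1)
    show (rho r m).2.1 (h + 1) + (rho r m).2.2 (h + 1) = _
    rw [h2]
    congr 2 <;> ring_nf
  · have h2 := (H m).2 (h + 1)
    show (rho r m).2.1 (h + 1) = _
    rw [h2, cs_shift, cs_shift]
    have e : h + 1 - n = h - (n - 1) := by ring
    have e2 : h - -1 = h + 1 := by ring
    rw [e, e2]

lemma form_c0 {r : Fb} {n : ℤ} {l : List ℤ} (H : Form r n l) (r' : Fb)
    (hr : ∀ m, rho r' m = cM (rho r m)) : Form r' n (0 :: l) := by
  intro m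
  rw [hr]
  have hk : (rho r m).1 = m.1 := rho_fst r m
  refine ⟨fun h => ?_, fun h => ?_⟩
  · have h2 := (H m).1 h
    show (if 1 ≤ h then (rho r m).2.2 h + (rho r m).1 h else (rho r m).2.1 h) +
      (if 1 ≤ h then (rho r m).2.1 h + (rho r m).1 h else (rho r m).2.2 h) = _
    split_ifs
    · rw [← h2]
      have := Z2_add_self ((rho r m).1 h)
      linear_combination this
    · exact h2
  · have h2 := (H m).2 h
    have h3 := (H m).1 h
    show (if 1 ≤ h then (rho r m).2.2 h + (rho r m).1 h else (rho r m).2.1 h) = _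
    rw [cs_cons, cs_cons, hk]
    have e : (0 < h) ↔ (1 ≤ h) := by omega
    simp only [e, sub_zero]
    split_ifs
    · have h4 : (rho r m).2.2 h = (rho r m).2.1 h + (m.2.1 (h - n) + m.2.2 (h - n)) := by
        rw [← h3]
        have := Z2_add_self ((rho r m).2.1 h)
        linear_combination - this
      rw [h4, h2]
      ring
    · rw [h2]
      ring

lemma exists_form (r : Fb) : ∃ n l, Form r n l := by
  have h : ∀ w : List (Bool × Bool), ∃ n l, Form (FreeGroup.mk w) n l := by
    intro w
    induction w with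
    | nil => exact ⟨0, [], form_one⟩
    | cons x w ih =>
      obtain ⟨n, l, H⟩ := ih
      have h1 : (FreeGroup.mk (x :: w) : Fb) = FreeGroup.mk [x] * FreeGroup.mk w := by
        rw [FreeGroup.mul_mk]; rfl
      rw [h1]
      obtain ⟨t, e⟩ := x
      have h3 : (FreeGroup.mk [(t, false)] : Fb) = (FreeGroup.of t)⁻¹ := by
        have h2 : (FreeGroup.mk [(t, true)] : Fb) = FreeGroup.of t := rfl
        rw [← h2, FreeGroup.inv_mk]; rfl
      cases t
      · cases e
        · rw [h3]
          exact ⟨n, 0 :: l, form_c0 H _ (fun m => by rw [rho_mul, rho_c_inv])⟩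
        · exact ⟨n, 0 :: l, form_c0 H _ (fun m => by
            show rho (FreeGroup.of false * _) m = _
            rw [rho_mul, rho_c])⟩
      · cases e
        · rw [h3]
          exact ⟨_, _, form_bi H⟩
        · exact ⟨_, _, form_b H⟩
  have h2 := h r.toWord
  rwa [FreeGroup.mk_toWord] at h2

/-- parity of the multiplicity of `s` in `l` -/
def mu2 (l : List ℤ) (s : ℤ) : ZMod 2 := (l.count s : ZMod 2)

lemma cs_delta (l : List ℤ) (a h : ℤ) (ha : 0 < a) :
    cs l (fun t => if t = a then 1 else 0) h = mu2 l (h - a) := by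
  induction l with
  | nil => simp [cs, mu2]
  | cons s l ih =>
    rw [cs_cons, ih]
    unfold mu2
    rw [List.count_cons]
    by_cases h1 : s = h - a
    · have h2 : s < h := by omega
      have h3 : h - s = a := by omega
      simp [h1, ha]
      ring
    · have h3 : ¬ (h - s = a) := by omega
      simp [h1, h3]

lemma cs_one_eq_zero (l : List ℤ) (h : ℤ) (H : ∀ s < h, mu2 l s = 0) :
    cs l (fun _ => 1) h = 0 := by
  have h1 : cs l (fun _ => 1) h = ∑ s ∈ l.toFinset, l.count s • (if s < h then (1 : ZMod 2) else 0) := by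
    unfold cs
    exact Finset.sum_list_map_count l (fun s => if s < h then (1 : ZMod 2) else 0)
  rw [h1]
  refine Finset.sum_eq_zero fun s _ => ?_
  by_cases h2 : s < h
  · have := H s h2
    unfold mu2 at this
    simp [h2, this]
  · simp [h2]

lemma exists_min (l : List ℤ) (h : ℤ) (H : cs l (fun _ => 1) h ≠ 0) :
    ∃ s < h, mu2 l s = 1 ∧ ∀ t < s, mu2 l t = 0 := by
  classical
  have h1 : ∃ s < h, mu2 l s ≠ 0 := by
    by_contra hc
    push Not at hc
    exact H (cs_one_eq_zero l h hc)
  have hne : (l.toFinset.filter (fun s => mu2 l s ≠ 0)).Nonempty := by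
    obtain ⟨s, _, hs⟩ := h1
    refine ⟨s, ?_⟩
    rw [Finset.mem_filter, List.mem_toFinset]
    refine ⟨?_, hs⟩
    by_contra hc
    apply hs
    unfold mu2
    rw [List.count_eq_zero_of_not_mem hc]
    rfl
  set s0 := (l.toFinset.filter (fun s => mu2 l s ≠ 0)).min' hne with hs0
  have hmem := Finset.min'_mem _ hne
  rw [← hs0, Finset.mem_filter] at hmem
  have hmin : ∀ t, mu2 l t ≠ 0 → s0 ≤ t := by
    intro t ht
    apply Finset.min'_le
    rw [Finset.mem_filter, List.mem_toFinset]
    refine ⟨?_, ht⟩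
    by_contra hc
    apply ht
    unfold mu2
    rw [List.count_eq_zero_of_not_mem hc]
    rfl
  refine ⟨s0, ?_, ?_, ?_⟩
  · obtain ⟨s, hs1, hs2⟩ := h1
    exact lt_of_le_of_lt (hmin s hs2) hs1
  · have := hmem.2
    generalize mu2 l s0 = z at this
    fin_cases z
    · exact absurd rfl this
    · rfl
  · intro t ht
    by_contra hc
    exact absurd (hmin t hc) (by omega)

/-- core of the flip lemma -/
lemma flip_core (r : Fb) : ∃ z : M, (∀ h ≤ 0, z.2.2 h = 0) ∧ z.2.2 1 = 1 ∧
    ∀ h ≤ 0, (rho r z).2.1 h = 0 := by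
  classical
  obtain ⟨n, l, H⟩ := exists_form r
  -- choice of k
  obtain ⟨k, hk1, hk2⟩ : ∃ k : Sq, (∀ h ≤ n, cs l k h = 0) ∧
      (n + 1 ≤ 0 → cs l (fun _ => 1) (n + 1) ≠ 0 → cs l k (n + 1) = 1) := by
    by_cases hc : cs l (fun _ => 1) (n + 1) ≠ 0
    · obtain ⟨s, hs1, hs2, hs3⟩ := exists_min l (n + 1) hc
      refine ⟨fun t => if t = n + 1 - s then 1 else 0, ?_, ?_⟩
      · intro h hh
        rw [cs_delta _ _ _ (by omega)]
        apply hs3
        omega
      · intro _ _
        rw [cs_delta _ _ _ (by omega)]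
        have : n + 1 - (n + 1 - s) = s := by ring
        rw [this]
        exact hs2
    · refine ⟨0, ?_, fun _ h => absurd h hc⟩
      intro h _
      have : cs l (0 : Sq) h = cs l (fun _ => (0 : ZMod 2)) h := rfl
      rw [this, cs_const, mul_zero]
  set v : Sq := fun t => if t ≤ 0 then 0 else if t = 1 then 1 else cs l k (t + n) with hv
  set u : Sq := fun t => if cs l (fun _ => 1) (t + n) = 0 then cs l k (t + n) else 0 with hu
  refine ⟨(k, u, v), ?_, ?_, ?_⟩
  · intro h hh
    show v h = 0
    simp [hv, hh]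
  · show v 1 = 1
    simp [hv]
  · intro h hh
    rw [(H (k, u, v)).2 h]
    show u (h - n) + (cs l (fun _ => 1) h * (u (h - n) + v (h - n)) + cs l k h) = 0
    have e : h - n + n = h := by ring
    by_cases hN : cs l (fun _ => 1) h = 0
    · have hu1 : u (h - n) = cs l k h := by
        simp only [hu, e, hN, if_true]
      rw [hN, hu1, zero_mul, zero_add]
      exact Z2_add_self _
    · have hN1 : cs l (fun _ => 1) h = 1 := by
        generalize cs l (fun _ => 1) h = z at hN
        fin_cases z
        · exact absurd rfl hN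
        · rfl
      have hu1 : u (h - n) = 0 := by
        simp only [hu, e, hN, if_false]
      rw [hN1, hu1, zero_add, zero_add, one_mul]
      by_cases c1 : h - n ≤ 0
      · have h2 : v (h - n) = 0 := by simp [hv, c1]
        rw [h2, hk1 h (by omega), zero_add]
      · by_cases c2 : h - n = 1
        · have h2 : v (h - n) = 1 := by simp [hv, c2]
          have h3 : h = n + 1 := by omega
          rw [h2, h3, hk2 (by omega) (by rw [← h3]; exact hN)]
          exact Z2_add_self 1
        · have h2 : v (h - n) = cs l k h := by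
            simp only [hv, c1, c2, if_false, e]
          rw [h2]
          exact Z2_add_self _

/-- flip lemma, first direction -/
lemma flip_A (r : Fb) : ∃ m m' : M, jj m = rho r (sw (jj m')) ∧ chi m' = 1 := by
  obtain ⟨z, h1, h2, h3⟩ := flip_core r
  refine ⟨rho r z, sw z, ?_, h2⟩
  have e1 : jj (rho r z) = rho r z := by
    refine Prod.ext rfl (Prod.ext ?_ rfl)
    funext h
    show (if 1 ≤ h then (rho r z).2.1 h else 0) = (rho r z).2.1 h
    split_ifs with hh
    · rfl
    · exact (h3 h (by omega)).symm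
  have e2 : jj (sw z) = sw z := by
    refine Prod.ext rfl (Prod.ext ?_ rfl)
    funext h
    show (if 1 ≤ h then z.2.2 h else 0) = z.2.2 h
    split_ifs with hh
    · rfl
    · exact (h1 h (by omega)).symm
  rw [e1, e2, sw_sw]

/-- flip lemma, second direction -/
lemma flip_B (r : Fb) : ∃ m m' : M, jj m = rho r (sw (jj m')) ∧
    chi (rho (FreeGroup.of true) m') = 1 := by
  refine ⟨0, ex 0 1, ?_, ?_⟩
  · have e : jj (ex 0 1) = 0 := by
      refine Prod.ext rfl (Prod.ext ?_ rfl)
      funext h
      show (if 1 ≤ h then (if h = 0 then (1 : ZMod 2) else 0) else 0) = 0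
      split_ifs
      · omega
      · rfl
      · rfl
    rw [e, sw_zero, rho_zero, jj_zero]
  · rw [rho_b]
    rfl

end Pool.Agent.Helper23.NC
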