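import Mathlib
import Pool.Agent.Helper23.NC.Flip

set_option autoImplicit false

/-!
All stabilisers of vertices have Haar measure at most that of the base stabiliser.
-/

namespace Pool.Agent.Helper23.NC

open MeasureTheory ENNReal

/-- inclusion of `F` -/
def iF (p : F) : EE := ⟨p, 0⟩
/-- inclusion of `M` -/
def iM (m : M) : EE := ⟨1, m⟩

lemma iM_mul (m n : M) : iM m * iM n = iM (m + n) := by
  apply EE.ext
  · simp [iM]
  · simp [iM]

lemma iM_inv (m : M) : (iM m)⁻¹ = iM m := by
  rw [inv_eq_iff_mul_eq_one, iM_mul, M_add_self]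
  rfl

@[simp] lemma ap_iF (p q : F) : EE.ap (iF p) q = p * q := by simp [EE.ap, iF]
@[simp] lemma ap_iM (m : M) (q : F) : EE.ap (iM m) q = act m q := by simp [EE.ap, iM]
@[simp] lemma ap_iF_inv (p q : F) : EE.ap (iF p)⁻¹ q = p⁻¹ * q := by
  have h : EE.ap (iF p)⁻¹ (EE.ap (iF p) (p⁻¹ * q)) = p⁻¹ * q := by
    rw [← EE.ap_mul, inv_mul_cancel, EE.ap_one]
  rw [ap_iF, mul_inv_cancel_left] at h
  exact h

/-- conjugate of `m` by `p` -/
def cj (p : F) (m : M) : EE := iF p * iM m * (iF p)⁻¹

lemma ap_cj (p : F) (m : M) (s : F) : EE.ap (cj p m) (p * s) = p * act m s := by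
  rw [cj, EE.ap_mul, EE.ap_mul, ap_iF_inv, inv_mul_cancel_left, ap_iM, ap_iF]

lemma qM_inv (e : EE) : EE.qM e⁻¹ = rho (bar e.g)⁻¹ (EE.qM e) := by
  have h := EE.qM_mul e⁻¹ e
  rw [inv_mul_cancel, EE.qM_one, EE.inv_g, bar_act, map_inv] at h
  have h3 := M_add_self (rho (bar e.g)⁻¹ (EE.qM e))
  calc EE.qM e⁻¹ = (EE.qM e⁻¹ + rho (bar e.g)⁻¹ (EE.qM e)) + rho (bar e.g)⁻¹ (EE.qM e) := by
        rw [add_assoc, h3, add_zero]
    _ = _ := by rw [← h, zero_add]

lemma qM_cj (p : F) (m : M) : EE.qM (cj p m) = rho (bar p) (jj m) := by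
  have h1 : EE.qM (iF p) = cc p := by simp [EE.qM, iF]
  have h2 : EE.qM (iM m) = jj m := by simp [EE.qM, iM]
  have h3 : (iF p * iM m).g = p := by simp [iF, iM]
  rw [cj, EE.qM_mul, EE.qM_mul, qM_inv, h1, h2, h3]
  have h4 : (iF p).g = p := rfl
  rw [h4, rho_apply_inv]
  calc cc p + rho (bar p) (jj m) + cc p = rho (bar p) (jj m) + (cc p + cc p) := by abel
    _ = _ := by rw [M_add_self, add_zero]

lemma bar_cj (p : F) (m : M) : bar (cj p m).g = 1 := by
  rw [cj, EE.bar_mul_g, EE.bar_mul_g, EE.inv_g, bar_act, map_inv]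
  simp [iF, iM]

/-- element of `G` from conjugates -/
lemma cj_mem {p q : F} {m m' : M} (h : jj m = rho ((bar p)⁻¹ * bar q) (sw (jj m'))) :
    (cj p m, cj q m') ∈ GS := by
  refine ⟨?_, ?_⟩
  · simp only
    rw [bar_cj, bar_cj]
  · simp only
    rw [qM_cj, qM_cj, h, ← rho_mul, sw_rho, mul_inv_cancel_left]

lemma GS_swap {x : EE × EE} (h : x ∈ GS) : (x.2, x.1) ∈ GS := by
  obtain ⟨h1, h2⟩ := h
  refine ⟨h1.symm, ?_⟩
  simp only
  rw [h2, sw_sw]

/-- the stabiliser of a vertex -/
def St (y : F × F) : Subgroup GT where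
  carrier := {a | aq a y = y}
  mul_mem' := by
    intro a b ha hb
    simp only [Set.mem_ofPred_eq] at *
    rw [aq_mul, hb, ha]
  one_mem' := by simp
  inv_mem' := by
    intro a ha
    simp only [Set.mem_ofPred_eq] at *
    have h : aq a⁻¹ (aq a y) = y := by rw [← aq_mul, inv_mul_cancel, aq_one]
    rwa [ha] at h

lemma mem_St (y : F × F) (a : GT) : a ∈ St y ↔ aq a y = y := Iff.rfl

lemma St_open (y : F × F) : IsOpen (St y : Set GT) := by
  have h : (St y : Set GT) = (fun a => aq a y) ⁻¹' {y} := by ext a; exact Iff.rfl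
  rw [h]
  exact (isOpen_discrete _).preimage (cont_aq y)

lemma St_meas (y : F × F) : MeasurableSet (St y : Set GT) := (St_open y).measurableSet

/-- abstract step -/
lemma meas_step (μ : Measure GT) [μ.IsHaarMeasure] (A B : Subgroup GT)
    (hA : MeasurableSet (A : Set GT)) (hB : MeasurableSet (B : Set GT))
    (h2 : ∀ a ∈ B, ∀ b ∈ B, a ∉ A → b ∉ A → b⁻¹ * a ∈ A)
    (hf : ∃ f ∈ A, f ∉ B) : μ (B : Set GT) ≤ μ (A : Set GT) := by
  set D : Set GT := (A : Set GT) ∩ B with hD
  have hDm : MeasurableSet D := hA.inter hB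
  have hleft : ∀ a : GT, μ ((fun x => a * x) '' D) = μ D := by
    intro a
    have : (fun x => a * x) '' D = (fun x => a⁻¹ * x) ⁻¹' D := by
      ext x
      constructor
      · rintro ⟨y, hy, rfl⟩
        simpa using hy
      · intro hx
        exact ⟨a⁻¹ * x, hx, by simp⟩
    rw [this, measure_preimage_mul]
  have c1 : μ (B : Set GT) ≤ 2 * μ D := by
    by_cases hex : ∃ b ∈ B, b ∉ A
    · obtain ⟨b, hb, hbA⟩ := hex
      have hsub : (B : Set GT) ⊆ D ∪ (fun x => b * x) '' D := by
        intro a ha
        by_cases haA : a ∈ A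
        · left; exact ⟨haA, ha⟩
        · right
          exact ⟨b⁻¹ * a, ⟨h2 a ha b hb haA hbA, B.mul_mem (B.inv_mem hb) ha⟩, by simp⟩
      calc μ (B : Set GT) ≤ μ (D ∪ (fun x => b * x) '' D) := measure_mono hsub
        _ ≤ μ D + μ ((fun x => b * x) '' D) := measure_union_le _ _
        _ = 2 * μ D := by rw [hleft, two_mul]
    · push Not at hex
      have hsub : (B : Set GT) ⊆ D := fun a ha => ⟨hex a ha, ha⟩
      calc μ (B : Set GT) ≤ μ D := measure_mono hsub
        _ ≤ 2 * μ D := by rw [two_mul]; exact le_self_add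
  have c2 : 2 * μ D ≤ μ (A : Set GT) := by
    obtain ⟨f, hfA, hfB⟩ := hf
    have hdisj : Disjoint D ((fun x => f * x) '' D) := by
      rw [Set.disjoint_left]
      rintro a ⟨_, haB⟩ ⟨x, ⟨_, hxB⟩, rfl⟩
      apply hfB
      have := B.mul_mem haB (B.inv_mem hxB)
      simpa using this
    have hm2 : MeasurableSet ((fun x => f * x) '' D) := by
      have : (fun x => f * x) '' D = (fun x => f⁻¹ * x) ⁻¹' D := by
        ext x
        constructor
        · rintro ⟨y, hy, rfl⟩
          simpa using hy
        · intro hx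
          exact ⟨f⁻¹ * x, hx, by simp⟩
      rw [this]
      exact (continuous_const_mul f⁻¹).measurable hDm
    calc 2 * μ D = μ D + μ ((fun x => f * x) '' D) := by rw [hleft, two_mul]
      _ = μ (D ∪ (fun x => f * x) '' D) := (measure_union hdisj hm2).symm
      _ ≤ μ (A : Set GT) := by
          apply measure_mono
          rintro a (⟨ha, _⟩ | ⟨x, ⟨hx, _⟩, rfl⟩)
          · exact ha
          · exact A.mul_mem hfA hx
  exact c1.trans c2

/-- letters or their inverses -/
lemma act_letter (n n' : M) (x : Lt × Bool) (h : act n (FreeGroup.mk [x]) ≠ FreeGroup.mk [x])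
    (h' : act n' (FreeGroup.mk [x]) ≠ FreeGroup.mk [x]) :
    act n (FreeGroup.mk [x]) = act n' (FreeGroup.mk [x]) := by
  obtain ⟨l, e⟩ := x
  have e1 : (FreeGroup.mk [(l, true)] : F) = FreeGroup.of l := rfl
  have e2 : (FreeGroup.mk [(l, false)] : F) = (FreeGroup.of l)⁻¹ := by
    rw [← e1, FreeGroup.inv_mk]; rfl
  have key : ∀ a b : ZMod 2, a ≠ 0 → b ≠ 0 → a = b := by decide
  cases l with
  | none =>
    exfalso
    apply h
    cases e
    · rw [e2, act_inv, act_of]; rfl
    · rw [e1, act_of]; rfl
  | some i =>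
    cases e with
    | true =>
      rw [e1, act_of] at h h' ⊢
      rw [act_of]
      have h1 : chi n ≠ 0 := fun hc => h (by rw [al_some, hc, add_zero])
      have h2 : chi n' ≠ 0 := fun hc => h' (by rw [al_some, hc, add_zero])
      rw [al_some, al_some, key _ _ h1 h2]
    | false =>
      rw [e2, act_inv, act_of] at h h' ⊢
      rw [act_inv, act_of]
      have h1 : chi (rho (bar (FreeGroup.of (some i))) n) ≠ 0 :=
        fun hc => h (by rw [al_some, hc, add_zero])
      have h2 : chi (rho (bar (FreeGroup.of (some i))) n') ≠ 0 :=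
        fun hc => h' (by rw [al_some, hc, add_zero])
      rw [al_some, al_some, key _ _ h1 h2]

lemma ap_mul_right (a : EE) (p s : F) :
    EE.ap a (p * s) = EE.ap a p * act (rho (bar p)⁻¹ a.m) s := by
  rw [EE.ap, act_mul, ← mul_assoc]; rfl

/-- existence of flips -/
lemma exists_flip (r : Fb) (i : ZMod 2) (e : Bool) : ∃ m m' : M, jj m = rho r (sw (jj m')) ∧
    act m' (FreeGroup.mk [(some i, e)]) ≠ FreeGroup.mk [(some i, e)] := by
  have e1 : (FreeGroup.mk [(some i, true)] : F) = FreeGroup.of (some i) := rfl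
  have e2 : (FreeGroup.mk [(some i, false)] : F) = (FreeGroup.of (some i))⁻¹ := by
    rw [← e1, FreeGroup.inv_mk]; rfl
  cases e with
  | true =>
    obtain ⟨m, m', h1, h2⟩ := flip_A r
    refine ⟨m, m', h1, ?_⟩
    rw [e1, act_of, al_some, h2]
    intro h
    have h3 := FreeGroup.of_injective h
    rw [Option.some.injEq] at h3
    have : (1 : ZMod 2) = 0 := by simpa using h3
    exact absurd this (by decide)
  | false =>
    obtain ⟨m, m', h1, h2⟩ := flip_B r
    refine ⟨m, m', h1, ?_⟩
    rw [e2, act_inv, act_of, bar_of, bl_some, al_some, h2]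
    intro h
    have h3 := FreeGroup.of_injective (inv_injective h)
    rw [Option.some.injEq] at h3
    have : (1 : ZMod 2) = 0 := by simpa using h3
    exact absurd this (by decide)

lemma act_none (n : M) (e : Bool) :
    act n (FreeGroup.mk [((none : Lt), e)]) = FreeGroup.mk [(none, e)] := by
  have e1 : (FreeGroup.mk [((none : Lt), true)] : F) = FreeGroup.of none := rfl
  have e2 : (FreeGroup.mk [((none : Lt), false)] : F) = (FreeGroup.of none)⁻¹ := by
    rw [← e1, FreeGroup.inv_mk]; rfl
  cases e with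
  | true => rw [e1, act_of]; rfl
  | false => rw [e2, act_inv, act_of]; rfl

lemma ap_back {a : EE} {q s : F} (h : EE.ap a (q * s) = q * s)
    (h' : act (rho (bar q)⁻¹ a.m) s = s) : EE.ap a q = q := by
  rw [ap_mul_right, h'] at h
  exact mul_right_cancel h

/-- moving the second coordinate -/
lemma step2 (μ : Measure GT) [μ.IsHaarMeasure] (p q : F) (x : Lt × Bool) :
    μ (St (p, q * FreeGroup.mk [x]) : Set GT) ≤ μ (St (p, q) : Set GT) := by
  obtain ⟨l, e⟩ := x
  cases l with
  | none =>
    apply measure_mono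
    intro a ha
    have h : aq a (p, q * FreeGroup.mk [(none, e)]) = (p, q * FreeGroup.mk [(none, e)]) := ha
    show aq a (p, q) = (p, q)
    unfold aq at *
    rw [Prod.mk.injEq] at h ⊢
    exact ⟨h.1, ap_back h.2 (act_none _ _)⟩
  | some i =>
    set s : F := FreeGroup.mk [(some i, e)] with hs
    apply meas_step μ _ _ (St_meas _) (St_meas _)
    · intro a ha b hb haA hbA
      have ha' : aq a (p, q * s) = (p, q * s) := ha
      have hb' : aq b (p, q * s) = (p, q * s) := hb
      have hka : ∀ c : GT, aq c (p, q * s) = (p, q * s) → c ∉ St (p, q) →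
          act (rho (bar q)⁻¹ c.1.2.m) s ≠ s := by
        intro c hc hc2 h
        apply hc2
        unfold aq at hc
        rw [Prod.mk.injEq] at hc
        show aq c (p, q) = (p, q)
        unfold aq
        rw [Prod.mk.injEq]
        exact ⟨hc.1, ap_back hc.2 h⟩
      have hea := hka a ha' haA
      have heb := hka b hb' hbA
      have he := act_letter _ _ _ hea heb
      have hab : aq a (p, q) = aq b (p, q) := by
        unfold aq at *
        rw [Prod.mk.injEq] at ha' hb' ⊢
        refine ⟨by rw [ha'.1, hb'.1], ?_⟩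
        have h1 := ha'.2
        have h2 := hb'.2
        rw [ap_mul_right] at h1 h2
        rw [← h2, he] at h1
        exact mul_right_cancel h1
      show aq (b⁻¹ * a) (p, q) = (p, q)
      rw [aq_mul, hab, ← aq_mul, inv_mul_cancel, aq_one]
    · obtain ⟨m, m', h1, h2⟩ := exists_flip ((bar p)⁻¹ * bar q) i e
      refine ⟨⟨(cj p m, cj q m'), cj_mem h1⟩, ?_, ?_⟩
      · show aq _ (p, q) = (p, q)
        unfold aq
        rw [Prod.mk.injEq]
        constructor
        · have := ap_cj p m 1
          simpa using this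
        · have := ap_cj q m' 1
          simpa using this
      · intro hc
        have hc' : aq _ (p, q * s) = (p, q * s) := hc
        unfold aq at hc'
        rw [Prod.mk.injEq] at hc'
        have h3 := hc'.2
        simp only at h3
        rw [ap_cj] at h3
        exact h2 (mul_left_cancel h3)

/-- moving the first coordinate -/
lemma step1 (μ : Measure GT) [μ.IsHaarMeasure] (p q : F) (x : Lt × Bool) :
    μ (St (p * FreeGroup.mk [x], q) : Set GT) ≤ μ (St (p, q) : Set GT) := by
  obtain ⟨l, e⟩ := x
  cases l with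
  | none =>
    apply measure_mono
    intro a ha
    have h : aq a (p * FreeGroup.mk [(none, e)], q) = (p * FreeGroup.mk [(none, e)], q) := ha
    show aq a (p, q) = (p, q)
    unfold aq at *
    rw [Prod.mk.injEq] at h ⊢
    exact ⟨ap_back h.1 (act_none _ _), h.2⟩
  | some i =>
    set s : F := FreeGroup.mk [(some i, e)] with hs
    apply meas_step μ _ _ (St_meas _) (St_meas _)
    · intro a ha b hb haA hbA
      have ha' : aq a (p * s, q) = (p * s, q) := ha
      have hb' : aq b (p * s, q) = (p * s, q) := hb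
      have hka : ∀ c : GT, aq c (p * s, q) = (p * s, q) → c ∉ St (p, q) →
          act (rho (bar p)⁻¹ c.1.1.m) s ≠ s := by
        intro c hc hc2 h
        apply hc2
        unfold aq at hc
        rw [Prod.mk.injEq] at hc
        show aq c (p, q) = (p, q)
        unfold aq
        rw [Prod.mk.injEq]
        exact ⟨ap_back hc.1 h, hc.2⟩
      have hea := hka a ha' haA
      have heb := hka b hb' hbA
      have he := act_letter _ _ _ hea heb
      have hab : aq a (p, q) = aq b (p, q) := by
        unfold aq at *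
        rw [Prod.mk.injEq] at ha' hb' ⊢
        refine ⟨?_, by rw [ha'.2, hb'.2]⟩
        have h1 := ha'.1
        have h2 := hb'.1
        rw [ap_mul_right] at h1 h2
        rw [← h2, he] at h1
        exact mul_right_cancel h1
      show aq (b⁻¹ * a) (p, q) = (p, q)
      rw [aq_mul, hab, ← aq_mul, inv_mul_cancel, aq_one]
    · obtain ⟨m, m', h1, h2⟩ := exists_flip ((bar q)⁻¹ * bar p) i e
      refine ⟨⟨(cj p m', cj q m), GS_swap (cj_mem h1)⟩, ?_, ?_⟩
      · show aq _ (p, q) = (p, q)
        unfold aq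
        rw [Prod.mk.injEq]
        constructor
        · have := ap_cj p m' 1
          simpa using this
        · have := ap_cj q m 1
          simpa using this
      · intro hc
        have hc' : aq _ (p * s, q) = (p * s, q) := hc
        unfold aq at hc'
        rw [Prod.mk.injEq] at hc'
        have h3 := hc'.1
        simp only at h3
        rw [ap_cj] at h3
        exact h2 (mul_left_cancel h3)

lemma mk_snoc (w : List (Lt × Bool)) (x : Lt × Bool) :
    (FreeGroup.mk (w ++ [x]) : F) = FreeGroup.mk w * FreeGroup.mk [x] := by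
  rw [FreeGroup.mul_mk]

theorem St_le (μ : Measure GT) [μ.IsHaarMeasure] (y : F × F) :
    μ (St y : Set GT) ≤ μ (St 1 : Set GT) := by
  have h1 : ∀ w : List (Lt × Bool), ∀ p : F,
      μ (St (p, FreeGroup.mk w) : Set GT) ≤ μ (St (p, 1) : Set GT) := by
    intro w
    induction w using List.reverseRecOn with
    | nil => intro p; exact le_refl _
    | append_singleton w x ih =>
      intro p
      rw [mk_snoc]
      exact (step2 μ p _ x).trans (ih p)
  have h2 : ∀ w : List (Lt × Bool),
      μ (St (FreeGroup.mk w, 1) : Set GT) ≤ μ (St (1, 1) : Set GT) := by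
    intro w
    induction w using List.reverseRecOn with
    | nil => exact le_refl _
    | append_singleton w x ih =>
      rw [mk_snoc]
      exact (step1 μ _ 1 x).trans ih
  obtain ⟨p, q⟩ := y
  have h3 := h1 q.toWord p
  have h4 := h2 p.toWord
  rw [FreeGroup.mk_toWord] at h3 h4
  exact h3.trans h4

theorem fibre_le (μ : Measure GT) [μ.IsHaarMeasure] (y z : F × F) :
    μ {a : GT | aq a y = z} ≤ μ (St 1 : Set GT) := by
  by_cases h : ∃ a, aq a y = z
  · obtain ⟨a, ha⟩ := h
    have e : {b : GT | aq b y = z} = (fun x => a⁻¹ * x) ⁻¹' (St y : Set GT) := by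
      ext b
      show aq b y = z ↔ aq (a⁻¹ * b) y = y
      rw [aq_mul]
      constructor
      · intro hb
        rw [hb, ← ha, ← aq_mul, inv_mul_cancel, aq_one]
      · intro hb
        have : aq a (aq a⁻¹ (aq b y)) = aq a y := by rw [hb]
        rw [← aq_mul, mul_inv_cancel, aq_one, ha] at this
        exact this
    rw [e, measure_preimage_mul]
    exact St_le μ y
  · have e : {b : GT | aq b y = z} = ∅ := by
      ext b
      simp only [Set.mem_ofPred_eq, Set.mem_empty_iff_false, iff_false]
      exact fun hb => h ⟨b, hb⟩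
    rw [e, measure_empty]
    exact bot_le

end Pool.Agent.Helper23.NC
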