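import Mathlib
import Pool.Agent.Helper23.NC.Stab
import Pool.Agent.Helper23.NC.Pref
import Pool.Agent.Helper23.NC.RDCrit

set_option autoImplicit false

/-!
Rapid decay of `G`.
-/

namespace Pool.Agent.Helper23.NC

open MeasureTheory ENNReal Pool.Agent.Helper23.Haagerup

/-- the length function on `G` -/
def LT (a : GT) : ℕ := max (orb a).1.norm (orb a).2.norm

lemma cont_LT : Continuous LT := by
  have h : Continuous (fun y : F × F => max y.1.norm y.2.norm) := continuous_of_discreteTopology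
  exact h.comp cont_orb

lemma LT_one : LT 1 = 0 := by
  simp [LT, orb]

lemma LT_mul (a b : GT) : LT (a * b) ≤ LT a + LT b := by
  have h1 : (orb (a * b)).1.norm ≤ (orb a).1.norm + (orb b).1.norm := by
    show (a.1.1.g * act a.1.1.m b.1.1.g).norm ≤ a.1.1.g.norm + b.1.1.g.norm
    refine (FreeGroup.norm_mul_le _ _).trans ?_
    rw [norm_act]
  have h2 : (orb (a * b)).2.norm ≤ (orb a).2.norm + (orb b).2.norm := by
    show (a.1.2.g * act a.1.2.m b.1.2.g).norm ≤ a.1.2.g.norm + b.1.2.g.norm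
    refine (FreeGroup.norm_mul_le _ _).trans ?_
    rw [norm_act]
  unfold LT
  omega

lemma LT_inv (a : GT) : LT a⁻¹ = LT a := by
  have h1 : (orb a⁻¹).1.norm = (orb a).1.norm := by
    show (act a.1.1.m a.1.1.g⁻¹).norm = a.1.1.g.norm
    rw [norm_act, FreeGroup.norm_inv_eq]
  have h2 : (orb a⁻¹).2.norm = (orb a).2.norm := by
    show (act a.1.2.m a.1.2.g⁻¹).norm = a.1.2.g.norm
    rw [norm_act, FreeGroup.norm_inv_eq]
  unfold LT
  rw [h1, h2]

/-- splitting types -/
def TT (r : ℕ) : Finset (ℕ × ℕ × ℕ × ℕ) :=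
  (Finset.range (r + 1)) ×ˢ (Finset.range (r + 1)) ×ˢ (Finset.range (r + 1)) ×ˢ
    (Finset.range (r + 1))

lemma TT_card (r : ℕ) : (TT r).card ≤ (r + 1) ^ 4 := by
  simp only [TT, Finset.card_product, Finset.card_range]
  exact le_of_eq (by ring)

/-- initial segments -/
def PP (t : ℕ × ℕ × ℕ × ℕ) (a : GT) : F × F := (pre t.1 (orb a).1, pre t.2.1 (orb a).2)
/-- initial segments -/
def QQ (t : ℕ × ℕ × ℕ × ℕ) (a : GT) : F × F := (pre t.2.2.1 (orb a).1, pre t.2.2.2 (orb a).2)

lemma G_split (a b : GT) : ∃ t ∈ TT (LT a), aq a (QQ t b) = PP t a ∧ PP t (a * b) = PP t a := by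
  obtain ⟨i, j, h1, h2, h3, h4⟩ := split_EE a.1.1 b.1.1
  obtain ⟨i', j', h1', h2', h3', h4'⟩ := split_EE a.1.2 b.1.2
  refine ⟨(i, i', j, j'), ?_, ?_, ?_⟩
  · have e1 : a.1.1.g.norm ≤ LT a := le_max_left _ _
    have e2 : a.1.2.g.norm ≤ LT a := le_max_right _ _
    simp only [TT, Finset.mem_product, Finset.mem_range]
    omega
  · exact Prod.ext h4 h4'
  · exact Prod.ext h3.symm h3'.symm

lemma St1_ne_top (μ : Measure GT) [μ.IsHaarMeasure] : μ (St 1 : Set GT) ≠ ⊤ := by
  have h : (St 1 : Set GT) ⊆ {a : GT | (orb a).1.norm ≤ 0 ∧ (orb a).2.norm ≤ 0} := by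
    intro a ha
    have h1 : aq a 1 = 1 := ha
    rw [aq_base] at h1
    show _ ∧ _
    rw [h1]
    simp
  exact ne_top_of_le_ne_top (ball_compact 0).measure_ne_top (measure_mono h)

theorem G_RD (μ : Measure GT) [μ.IsHaarMeasure] :
    ∃ L : GT → ℝ, Measurable L ∧ L 1 = 0 ∧ (∀ g, 0 ≤ L g) ∧ (∀ g, L g⁻¹ = L g) ∧
      (∀ g h, L (g * h) ≤ L g + L h) ∧
      (∀ K : Set GT, IsCompact K → BddAbove (L '' K)) ∧
      ∃ C s : ℝ, 0 ≤ C ∧ 0 ≤ s ∧
        ∀ f ξ : GT → ℂ, Continuous f → HasCompactSupport f → Continuous ξ →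
          HasCompactSupport ξ →
          eLpNorm (fun x => ∫ y, f y * ξ (y⁻¹ * x) ∂μ) 2 μ ≤
            ENNReal.ofReal C * eLpNorm (fun g => f g * (((1 + L g) ^ s : ℝ) : ℂ)) 2 μ *
              eLpNorm ξ 2 μ := by
  have hcont : Continuous (fun a : GT => (LT a : ℝ)) :=
    (continuous_of_discreteTopology (f := fun n : ℕ => (n : ℝ))).comp cont_LT
  refine ⟨fun a => (LT a : ℝ), hcont.measurable, ?_, ?_, ?_, ?_, ?_, ?_⟩
  · simp only; rw [LT_one]; simp
  · intro g; positivity
  · intro g; simp only; rw [LT_inv]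
  · intro g h
    show (LT (g * h) : ℝ) ≤ (LT g : ℝ) + (LT h : ℝ)
    exact_mod_cast LT_mul g h
  · intro K hK
    exact (hK.image hcont).bddAbove
  · let _ : MeasurableSpace (F × F) := ⊤
    have hsing : MeasurableSingletonClass (F × F) := ⟨fun _ => trivial⟩
    have hmeas : ∀ u : GT → F × F, Continuous u → Measurable u := fun u hu s _ =>
      ((isOpen_discrete s).preimage hu).measurableSet
    refine rd_eLp μ aq (fun y => hmeas _ (cont_aq y)) LT cont_LT.measurable TT 4 TT_card PP QQ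
      ?_ ?_ G_split (μ (St 1 : Set GT)) (St1_ne_top μ) (fibre_le μ)
    · intro t
      apply hmeas
      have h : Continuous (fun y : F × F => (pre t.1 y.1, pre t.2.1 y.2)) :=
        continuous_of_discreteTopology
      exact h.comp cont_orb
    · intro t
      apply hmeas
      have h : Continuous (fun y : F × F => (pre t.2.2.1 y.1, pre t.2.2.2 y.2)) :=
        continuous_of_discreteTopology
      exact h.comp cont_orb

end Pool.Agent.Helper23.NC
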