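import Mathlib
import Pool.Agent.Helper23.NC.TopE
import Pool.Agent.Helper23.NC.Pref

set_option autoImplicit false

/-!
Transitivity, compact generation of `G`, and the comparison of lengths on `H`.
-/

namespace Pool.Agent.Helper23.NC

/-- generators of the fibre product -/
def S0 : Set (F × F) := {x | ∃ (l l' : Lt) (e : Bool), bl l = bl l' ∧
  x = (FreeGroup.mk [(l, e)], FreeGroup.mk [(l', e)])}

/-- product of exactly `n` generators -/
def IsP (n : ℕ) (x : F × F) : Prop :=
  ∃ l : List (F × F), l.length = n ∧ (∀ a ∈ l, a ∈ S0) ∧ l.prod = x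

lemma IsP.mul {n m : ℕ} {x y : F × F} (hx : IsP n x) (hy : IsP m y) : IsP (n + m) (x * y) := by
  obtain ⟨l, h1, h2, h3⟩ := hx
  obtain ⟨l', h1', h2', h3'⟩ := hy
  refine ⟨l ++ l', by simp [h1, h1'], ?_, by simp [h3, h3']⟩
  intro a ha
  rw [List.mem_append] at ha
  rcases ha with ha | ha
  · exact h2 a ha
  · exact h2' a ha

lemma act_mk1 (m : M) (x : Lt × Bool) : act m (FreeGroup.mk [x]) = FreeGroup.mk [im m x] := by
  rw [← mk_actL]; rfl

lemma transfer_P (l : List (F × F)) (hl : ∀ a ∈ l, a ∈ S0) : ∀ m m' : M,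
    IsP l.length (act m l.prod.1, act m' l.prod.2) := by
  induction l with
  | nil =>
    intro m m'
    refine ⟨[], rfl, by simp, ?_⟩
    show (1 : F × F) = (act m 1, act m' 1)
    rw [act_one, act_one]; rfl
  | cons s l ih =>
    intro m m'
    obtain ⟨a, a', e, h1, h2⟩ := hl s (by simp)
    have ih' := ih (fun b hb => hl b (by simp [hb]))
    rw [List.prod_cons, Prod.fst_mul, Prod.snd_mul, act_mul, act_mul, List.length_cons, add_comm]
    have h3 : IsP 1 (act m s.1, act m' s.2) := by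
      refine ⟨[(act m s.1, act m' s.2)], rfl, ?_, by simp⟩
      intro b hb
      rw [List.mem_singleton] at hb
      subst hb
      rw [h2]
      simp only [act_mk1]
      refine ⟨_, _, e, ?_, rfl⟩
      rw [bl_al, bl_al, h1]
    exact h3.mul (ih' _ _)

/-- normalising letters -/
def l0 (l : Lt) : Lt := l.map (fun _ => 0)

lemma bl_l0 (l : Lt) : bl (l0 l) = bl l := by cases l <;> rfl

/-- the retraction -/
def sg : F →* F := FreeGroup.lift fun l => FreeGroup.of (l0 l)

/-- the section on `Fb` -/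
def sb : Fb →* F := FreeGroup.lift fun t => if t = true then FreeGroup.of (some 0)
  else FreeGroup.of none

lemma sg_eq (p : F) : sg p = sb (bar p) := by
  have h : sg = sb.comp bar := by
    apply FreeGroup.ext_hom
    intro l
    cases l with
    | none => simp [sg, sb, l0]
    | some i => simp [sg, sb, l0]
  rw [h]; rfl

lemma sg_mk1 (x : Lt × Bool) : sg (FreeGroup.mk [x]) = FreeGroup.mk [(l0 x.1, x.2)] := by
  obtain ⟨l, e⟩ := x
  have e1 : ∀ l : Lt, (FreeGroup.mk [(l, true)] : F) = FreeGroup.of l := fun _ => rfl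
  have e2 : ∀ l : Lt, (FreeGroup.mk [(l, false)] : F) = (FreeGroup.of l)⁻¹ := by
    intro l
    rw [← e1, FreeGroup.inv_mk]; rfl
  cases e with
  | true => rw [e1, e1]; simp [sg]
  | false => rw [e2, e2, map_inv]; simp [sg]

lemma mk_cons' (x : Lt × Bool) (w : List (Lt × Bool)) :
    (FreeGroup.mk (x :: w) : F) = FreeGroup.mk [x] * FreeGroup.mk w := by
  rw [FreeGroup.mul_mk]; rfl

lemma isP_gen (u v : F →* F) (hu : ∀ x, (u (FreeGroup.mk [x]), v (FreeGroup.mk [x])) ∈ S0)
    (p : F) : IsP p.norm (u p, v p) := by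
  have h : ∀ w : List (Lt × Bool), IsP w.length (u (FreeGroup.mk w), v (FreeGroup.mk w)) := by
    intro w
    induction w with
    | nil =>
      refine ⟨[], rfl, by simp, ?_⟩
      have : (FreeGroup.mk ([] : List (Lt × Bool)) : F) = 1 := rfl
      rw [this, map_one, map_one]; rfl
    | cons x w ih =>
      rw [mk_cons', map_mul, map_mul, List.length_cons, add_comm]
      have h1 : IsP 1 (u (FreeGroup.mk [x]), v (FreeGroup.mk [x])) :=
        ⟨[_], rfl, by
          intro b hb
          rw [List.mem_singleton] at hb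
          subst hb
          exact hu x, by simp⟩
      exact h1.mul ih
  have h2 := h p.toWord
  rw [FreeGroup.mk_toWord] at h2
  exact h2

lemma isP_of_bar (x : F × F) (hx : bar x.1 = bar x.2) :
    IsP (x.1.norm + x.1.norm + x.2.norm) x := by
  have h1 : IsP x.1.norm (x.1, sg x.1) := isP_gen (MonoidHom.id F) sg (by
    intro y
    rw [sg_mk1]
    exact ⟨y.1, l0 y.1, y.2, (bl_l0 _).symm, rfl⟩) x.1
  have h2 : IsP x.1⁻¹.norm (sg x.1⁻¹, sg x.1⁻¹) := isP_gen sg sg (by
    intro y
    rw [sg_mk1]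
    exact ⟨l0 y.1, l0 y.1, y.2, rfl, rfl⟩) x.1⁻¹
  have h3 : IsP x.2.norm (sg x.2, x.2) := isP_gen sg (MonoidHom.id F) (by
    intro y
    rw [sg_mk1]
    exact ⟨l0 y.1, y.1, y.2, bl_l0 _, rfl⟩) x.2
  rw [FreeGroup.norm_inv_eq] at h2
  have h4 := (h1.mul h2).mul h3
  have h5 : sg x.1 = sg x.2 := by rw [sg_eq, sg_eq, hx]
  have h6 : (x.1, sg x.1) * (sg x.1⁻¹, sg x.1⁻¹) * (sg x.2, x.2) = x := by
    apply Prod.ext
    · simp only [Prod.fst_mul, map_inv, h5]
      group
    · simp only [Prod.snd_mul, map_inv]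
      group
  rw [h6] at h4
  exact h4

lemma cc_fst (p : F) : (cc p).1 = 0 := by
  refine FG_induction (C := fun p => (cc p).1 = 0) ?_ ?_ ?_ ?_ p
  · simp
  · intro l
    cases l with
    | none => simp [cl]
    | some i => simp [cl, ex]
  · intro p hp
    rw [cc_inv, rho_fst, hp]
  · intro p q hp hq
    rw [cc_mul, Prod.fst_add, rho_fst, hp, hq, add_zero]

/-- `H` is transitive on the fibre product -/
lemma exists_H (x : F × F) (hx : bar x.1 = bar x.2) : ∃ t ∈ HS, orb t = x := by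
  set c : M := rho (bar x.1)⁻¹ (cc x.1 + sw (cc x.2)) with hc
  have hc1 : c.1 = 0 := by
    rw [hc, rho_fst, Prod.fst_add, cc_fst, zero_add]
    exact cc_fst x.2
  have hmem : ((⟨x.1, (0, 0, c.2.2)⟩ : EE), (⟨x.2, (0, 0, c.2.1)⟩ : EE)) ∈ GS := by
    refine ⟨hx, ?_⟩
    simp only [EE.qM]
    have e1 : jj ((0, 0, c.2.2) : M) = (0, 0, c.2.2) := by
      refine Prod.ext rfl (Prod.ext ?_ rfl)
      funext h
      simp [jj]
    have e2 : sw (jj ((0, 0, c.2.1) : M)) = (0, c.2.1, 0) := by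
      refine Prod.ext rfl (Prod.ext rfl ?_)
      funext h
      simp [jj, sw]
    rw [sw_add, sw_rho, e1, e2, ← hx]
    have e3 : ((0, 0, c.2.2) : M) + (0, c.2.1, 0) = c := by
      refine Prod.ext ?_ (Prod.ext ?_ ?_)
      · rw [hc1]; simp
      · simp
      · simp
    have e4 : rho (bar x.1) c = cc x.1 + sw (cc x.2) := by rw [hc, rho_apply_inv]
    rw [← e3, rho_add] at e4
    have e5 := M_add_self (rho (bar x.1) ((0, c.2.1, 0) : M))
    have e6 := M_add_self (cc x.1)
    calc cc x.1 + rho (bar x.1) (0, 0, c.2.2)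
        = cc x.1 + (rho (bar x.1) (0, 0, c.2.2) + (rho (bar x.1) ((0, c.2.1, 0) : M) +
          rho (bar x.1) ((0, c.2.1, 0) : M))) := by rw [e5, add_zero]
      _ = cc x.1 + ((rho (bar x.1) (0, 0, c.2.2) + rho (bar x.1) ((0, c.2.1, 0) : M)) +
          rho (bar x.1) ((0, c.2.1, 0) : M)) := by rw [add_assoc (rho (bar x.1) (0, 0, c.2.2))]
      _ = (cc x.1 + cc x.1) + sw (cc x.2) + rho (bar x.1) ((0, c.2.1, 0) : M) := by
          rw [e4]; abel
      _ = _ := by rw [e6, zero_add]
  refine ⟨⟨_, hmem⟩, ?_, rfl⟩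
  rw [mem_HS]

/-- one step of the decomposition -/
lemma peel {n : ℕ} {h : GT} (hh : IsP (n + 1) (orb h)) :
    ∃ t ∈ HS, orb t ∈ S0 ∧ IsP n (orb (t⁻¹ * h)) := by
  obtain ⟨l, h1, h2, h3⟩ := hh
  cases l with
  | nil => simp at h1
  | cons s l =>
    have hs : s ∈ S0 := h2 s (by simp)
    have hbs : bar s.1 = bar s.2 := by
      obtain ⟨a, a', e, h4, h5⟩ := hs
      rw [h5]
      have e1 : ∀ l : Lt, (FreeGroup.mk [(l, true)] : F) = FreeGroup.of l := fun _ => rfl
      have e2 : ∀ l : Lt, (FreeGroup.mk [(l, false)] : F) = (FreeGroup.of l)⁻¹ := by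
        intro l
        rw [← e1, FreeGroup.inv_mk]; rfl
      cases e with
      | true => simp only [e1, bar_of, h4]
      | false => simp only [e2, map_inv, bar_of, h4]
    obtain ⟨t, ht, hto⟩ := exists_H s hbs
    refine ⟨t, ht, by rw [hto]; exact hs, ?_⟩
    have h6 : l.length = n := by simpa using h1
    have h7 := transfer_P l (fun b hb => h2 b (by simp [hb])) t.1.1.m t.1.2.m
    rw [h6] at h7
    have e1 : t.1.1.g = s.1 := by rw [← hto]; rfl
    have e2 : t.1.2.g = s.2 := by rw [← hto]; rfl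
    have e3 : h.1.1.g = s.1 * l.prod.1 := by
      have : (orb h).1 = s.1 * l.prod.1 := by rw [← h3, List.prod_cons, Prod.fst_mul]
      exact this
    have e4 : h.1.2.g = s.2 * l.prod.2 := by
      have : (orb h).2 = s.2 * l.prod.2 := by rw [← h3, List.prod_cons, Prod.snd_mul]
      exact this
    have key : ∀ a b : EE, ∀ y : F, b.g = a.g * y → (a⁻¹ * b).g = act a.m y := by
      intro a b y hy
      rw [EE.mul_g, EE.inv_g, EE.inv_m, hy]
      have := act_mul a.m a.g⁻¹ (a.g * y)
      rw [inv_mul_cancel_left, map_inv, inv_inv] at this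
      exact this.symm
    have e5 : orb (t⁻¹ * h) = (act t.1.1.m l.prod.1, act t.1.2.m l.prod.2) := by
      apply Prod.ext
      · exact key t.1.1 h.1.1 _ (by rw [e3, e1])
      · exact key t.1.2 h.1.2 _ (by rw [e4, e2])
    rw [e5]
    exact h7

/-- the generating ball -/
def B1 : Set GT := {a : GT | (orb a).1.norm ≤ 1 ∧ (orb a).2.norm ≤ 1}

lemma S0_norm {x : F × F} (hx : x ∈ S0) : x.1.norm ≤ 1 ∧ x.2.norm ≤ 1 := by
  obtain ⟨a, a', e, _, h⟩ := hx
  rw [h]
  constructor
  · exact FreeGroup.norm_mk_le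
  · exact FreeGroup.norm_mk_le

lemma orb_eq_one_mem {h : GT} (hh : orb h = 1) : h ∈ B1 := by
  show _ ∧ _
  rw [hh]
  simp

lemma orb_bar (h : GT) : bar (orb h).1 = bar (orb h).2 := h.2.1

theorem compactly_generated : ∃ Q : Set GT, IsCompact Q ∧ Subgroup.closure Q = ⊤ := by
  refine ⟨B1, ball_compact 1, ?_⟩
  rw [eq_top_iff]
  have key : ∀ n : ℕ, ∀ h : GT, IsP n (orb h) → h ∈ Subgroup.closure B1 := by
    intro n
    induction n with
    | zero =>
      rintro h ⟨l, h1, _, h3⟩
      rw [List.length_eq_zero_iff] at h1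
      subst h1
      apply Subgroup.subset_closure
      exact orb_eq_one_mem h3.symm
    | succ n ih =>
      intro h hh
      obtain ⟨t, _, h2, h3⟩ := peel hh
      have h4 := ih _ h3
      have h5 : t ∈ Subgroup.closure B1 := Subgroup.subset_closure (S0_norm h2)
      have h6 : h = t * (t⁻¹ * h) := by group
      rw [h6]
      exact mul_mem h5 h4
  intro h _
  exact key _ h (isP_of_bar _ (orb_bar h))

/-- comparison of lengths on `H` -/
theorem length_le (L : HS → ℝ) (hmul : ∀ g h, L (g * h) ≤ L g + L h) (B : ℝ)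
    (hB : ∀ h : HS, (h : GT) ∈ B1 → L h ≤ B) : ∀ (n : ℕ) (h : HS), IsP n (orb h) →
      L h ≤ (n + 1) * B := by
  intro n
  induction n with
  | zero =>
    rintro h ⟨l, h1, _, h3⟩
    rw [List.length_eq_zero_iff] at h1
    subst h1
    have := hB h (orb_eq_one_mem h3.symm)
    simpa using this
  | succ n ih =>
    intro h hh
    obtain ⟨t, h1, h2, h3⟩ := peel hh
    have h4 := ih ((⟨t, h1⟩ : HS)⁻¹ * h) h3
    have h5 := hB ⟨t, h1⟩ (S0_norm h2)
    have h6 := hmul ⟨t, h1⟩ ((⟨t, h1⟩ : HS)⁻¹ * h)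
    rw [mul_inv_cancel_left] at h6
    push_cast
    linarith

end Pool.Agent.Helper23.NC
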