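import Mathlib

set_option autoImplicit false

/-!
Compact open subgroups of large measure and small length obstruct rapid decay.
-/

namespace Pool.Agent.Helper23.NC

open MeasureTheory ENNReal

variable {H : Type} [Group H] [TopologicalSpace H] [IsTopologicalGroup H] [MeasurableSpace H]
  [BorelSpace H]

theorem nonRD_bound (ν : Measure H) [ν.IsHaarMeasure] (W : Subgroup H)
    (hWo : IsOpen (W : Set H)) (hWc : IsCompact (W : Set H)) (L : H → ℝ) (hL0 : ∀ g, 0 ≤ L g)
    (B : ℝ) (hB : ∀ h ∈ W, L h ≤ B) (C s : ℝ) (hC : 0 ≤ C) (hs : 0 ≤ s)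
    (hRD : ∀ f ξ : H → ℂ, Continuous f → HasCompactSupport f → Continuous ξ →
      HasCompactSupport ξ →
      eLpNorm (fun x => ∫ y, f y * ξ (y⁻¹ * x) ∂ν) 2 ν ≤
        ENNReal.ofReal C * eLpNorm (fun g => f g * (((1 + L g) ^ s : ℝ) : ℂ)) 2 ν *
          eLpNorm ξ 2 ν) :
    (ν (W : Set H)).toReal ≤ C ^ 2 * ((1 + B) ^ s) ^ 2 := by
  classical
  have hclosed : IsClosed (W : Set H) := W.isClosed_of_isOpen hWo
  have hclopen : IsClopen (W : Set H) := ⟨hclosed, hWo⟩
  have hmeas : MeasurableSet (W : Set H) := hWo.measurableSet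
  set f : H → ℂ := (W : Set H).indicator (fun _ => (1 : ℂ)) with hf
  have hfc : Continuous f := hclopen.continuous_indicator continuous_const
  have hfs : HasCompactSupport f :=
    HasCompactSupport.intro hWc (fun x hx => Set.indicator_of_notMem hx _)
  have hB0 : 0 ≤ B := (hL0 1).trans (hB 1 W.one_mem)
  have hVt : ν (W : Set H) ≠ ⊤ := hWc.measure_ne_top
  set V : ℝ := (ν (W : Set H)).toReal with hV
  have hV0 : 0 ≤ V := ENNReal.toReal_nonneg
  have hconv : (fun x => ∫ y, f y * f (y⁻¹ * x) ∂ν) =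
      (W : Set H).indicator (fun _ => (V : ℂ)) := by
    funext x
    by_cases hx : x ∈ W
    · have h1 : ∀ y, f y * f (y⁻¹ * x) = (W : Set H).indicator (fun _ => (1 : ℂ)) y := by
        intro y
        by_cases hy : y ∈ W
        · have h2 : y⁻¹ * x ∈ (W : Set H) := W.mul_mem (W.inv_mem hy) hx
          rw [hf, Set.indicator_of_mem hy, Set.indicator_of_mem h2, mul_one]
        · rw [hf, Set.indicator_of_notMem hy, zero_mul]
      simp only [h1]
      rw [integral_indicator_const _ hmeas, Set.indicator_of_mem hx]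
      simp [Measure.real, hV]
    · have h1 : ∀ y, f y * f (y⁻¹ * x) = 0 := by
        intro y
        by_cases hy : y ∈ W
        · have h2 : y⁻¹ * x ∉ (W : Set H) := by
            intro h
            apply hx
            have := W.mul_mem hy h
            simpa using this
          rw [hf, Set.indicator_of_notMem h2, mul_zero]
        · rw [hf, Set.indicator_of_notMem hy, zero_mul]
      simp only [h1]
      rw [integral_zero, Set.indicator_of_notMem hx]
  have key := hRD f f hfc hfs hfc hfs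
  rw [hconv] at key
  have h2 : eLpNorm (fun g => f g * (((1 + L g) ^ s : ℝ) : ℂ)) 2 ν ≤
      eLpNorm ((W : Set H).indicator (fun _ => (((1 + B) ^ s : ℝ) : ℂ))) 2 ν := by
    apply eLpNorm_mono
    intro x
    by_cases hx : x ∈ W
    · rw [hf, Set.indicator_of_mem hx, Set.indicator_of_mem hx, one_mul, Complex.norm_real,
        Complex.norm_real, Real.norm_of_nonneg (Real.rpow_nonneg (by linarith [hL0 x]) _),
        Real.norm_of_nonneg (Real.rpow_nonneg (by linarith) _)]
      exact Real.rpow_le_rpow (by linarith [hL0 x]) (by linarith [hB x hx]) hs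
    · rw [hf, Set.indicator_of_notMem hx, zero_mul, norm_zero]
      exact norm_nonneg _
  have key2 := key.trans (mul_le_mul_left (mul_le_mul_right h2 _) _)
  rw [hf, eLpNorm_indicator_const hmeas (by norm_num) (by norm_num),
    eLpNorm_indicator_const hmeas (by norm_num) (by norm_num),
    eLpNorm_indicator_const hmeas (by norm_num) (by norm_num)] at key2
  -- pass to real numbers
  have e1 : ∀ t : ℝ, 0 ≤ t → ‖(t : ℂ)‖ₑ = ENNReal.ofReal t := by
    intro t ht
    rw [← ofReal_norm, Complex.norm_real, Real.norm_of_nonneg ht]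
  have hR0 : (0 : ℝ) ≤ (1 + B) ^ s := Real.rpow_nonneg (by linarith) _
  have e2 : ν (W : Set H) ^ (1 / (2 : ℝ≥0∞).toReal) = ENNReal.ofReal (Real.sqrt V) := by
    rw [hV, Real.sqrt_eq_rpow, ← ENNReal.ofReal_rpow_of_nonneg ENNReal.toReal_nonneg (by norm_num),
      ENNReal.ofReal_toReal hVt]
    norm_num
  have e3 : ‖(1 : ℂ)‖ₑ = 1 := by simp
  rw [e2, e1 V hV0, e1 _ hR0, e3, one_mul, ← ENNReal.ofReal_mul hV0, ← ENNReal.ofReal_mul hR0,
    ← ENNReal.ofReal_mul hC, ← ENNReal.ofReal_mul (by positivity)] at key2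
  have key3 : V * Real.sqrt V ≤ C * ((1 + B) ^ s * Real.sqrt V) * Real.sqrt V :=
    (ENNReal.ofReal_le_ofReal_iff (by positivity)).mp key2
  by_cases hVz : V = 0
  · rw [hVz]; positivity
  · have hVpos : 0 < V := lt_of_le_of_ne hV0 (Ne.symm hVz)
    have hsq : Real.sqrt V * Real.sqrt V = V := Real.mul_self_sqrt hV0
    have hspos : 0 < Real.sqrt V := Real.sqrt_pos.mpr hVpos
    have key4 : V * Real.sqrt V ≤ V * (C * (1 + B) ^ s) := by
      calc V * Real.sqrt V ≤ C * ((1 + B) ^ s * Real.sqrt V) * Real.sqrt V := key3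
        _ = (Real.sqrt V * Real.sqrt V) * (C * (1 + B) ^ s) := by ring
        _ = _ := by rw [hsq]
    have key5 : Real.sqrt V ≤ C * (1 + B) ^ s := le_of_mul_le_mul_left key4 hVpos
    calc V = Real.sqrt V ^ 2 := (Real.sq_sqrt hV0).symm
      _ ≤ (C * (1 + B) ^ s) ^ 2 := pow_le_pow_left₀ hspos.le key5 2
      _ = _ := by ring

end Pool.Agent.Helper23.NC
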