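import Mathlib
import Pool.Agent.Helper23.NC.Stab
import Pool.Agent.Helper23.NC.Gen
import Pool.Agent.Helper23.NC.NonCrit

set_option autoImplicit false

/-!
The compact open subgroups of `H` of exponential measure, and failure of rapid decay of `H`.
-/

namespace Pool.Agent.Helper23.NC

open MeasureTheory ENNReal

/-- the element `b` of `Fb` -/
abbrev tb : Fb := FreeGroup.of true
/-- the letter `b_0` -/
abbrev b0 : F := FreeGroup.of (some 0)
/-- the letter `c` -/
abbrev c0 : F := FreeGroup.of none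

/-- the element `b^{-n} c b^n` -/
def rn (n : ℕ) : Fb := (tb⁻¹) ^ n * FreeGroup.of false * tb ^ n
/-- its lift -/
def qn (n : ℕ) : F := (b0⁻¹) ^ n * c0 * b0 ^ n

lemma bar_qn (n : ℕ) : bar (qn n) = rn n := by
  simp [qn, rn]

lemma rho_tb_pow (n : ℕ) : ∀ m : M, rho (tb ^ n) m =
    (m.1, fun h => m.2.1 (h - n), fun h => m.2.2 (h - n)) := by
  induction n with
  | zero => intro m; simp
  | succ n ih =>
    intro m
    rw [pow_succ, rho_mul, rho_b, ih]
    refine Prod.ext rfl (Prod.ext ?_ ?_)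
    · funext h
      show m.2.1 (h - n - 1) = m.2.1 (h - ((n + 1 : ℕ) : ℤ))
      push_cast; ring_nf
    · funext h
      show m.2.2 (h - n - 1) = m.2.2 (h - ((n + 1 : ℕ) : ℤ))
      push_cast; ring_nf

lemma rho_tbi_pow (n : ℕ) : ∀ m : M, rho ((tb⁻¹) ^ n) m =
    (m.1, fun h => m.2.1 (h + n), fun h => m.2.2 (h + n)) := by
  induction n with
  | zero => intro m; simp
  | succ n ih =>
    intro m
    rw [pow_succ, rho_mul, rho_b_inv, ih]
    refine Prod.ext rfl (Prod.ext ?_ ?_)
    · funext h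
      show m.2.1 (h + n + 1) = m.2.1 (h + ((n + 1 : ℕ) : ℤ))
      push_cast; ring_nf
    · funext h
      show m.2.2 (h + n + 1) = m.2.2 (h + ((n + 1 : ℕ) : ℤ))
      push_cast; ring_nf

/-- swap of heights above `-n` -/
def swn (n : ℕ) (m : M) : M :=
  (m.1, fun h => if 1 - (n : ℤ) ≤ h then m.2.2 h else m.2.1 h,
    fun h => if 1 - (n : ℤ) ≤ h then m.2.1 h else m.2.2 h)

lemma swn_swn (n : ℕ) (m : M) : swn n (swn n m) = m := by
  refine Prod.ext rfl (Prod.ext ?_ ?_)
  · funext h
    simp only [swn]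
    split_ifs <;> rfl
  · funext h
    simp only [swn]
    split_ifs <;> rfl

lemma rho_rn (n : ℕ) (m : M) (hm : m.1 = 0) : rho (rn n) m = swn n m := by
  unfold rn
  rw [rho_mul, rho_mul, rho_tb_pow, rho_c, rho_tbi_pow]
  refine Prod.ext rfl (Prod.ext ?_ ?_)
  · funext h
    show (if 1 ≤ h + (n : ℤ) then m.2.2 (h + n - n) + m.1 (h + n) else m.2.1 (h + n - n)) = _
    have e : h + (n : ℤ) - n = h := by ring
    have e2 : (1 ≤ h + (n : ℤ)) ↔ (1 - (n : ℤ) ≤ h) := by constructor <;> intro h <;> linarith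
    simp only [e, e2, hm, swn, Pi.zero_apply, add_zero]
  · funext h
    show (if 1 ≤ h + (n : ℤ) then m.2.1 (h + n - n) + m.1 (h + n) else m.2.2 (h + n - n)) = _
    have e : h + (n : ℤ) - n = h := by ring
    have e2 : (1 ≤ h + (n : ℤ)) ↔ (1 - (n : ℤ) ≤ h) := by constructor <;> intro h <;> linarith
    simp only [e, e2, hm, swn, Pi.zero_apply, add_zero]

lemma rho_rn_inv (n : ℕ) (m : M) (hm : m.1 = 0) : rho (rn n)⁻¹ m = swn n m := by
  have h1 : rho (rn n) (swn n m) = m := by
    rw [rho_rn n (swn n m) hm, swn_swn]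
  calc rho (rn n)⁻¹ m = rho (rn n)⁻¹ (rho (rn n) (swn n m)) := by rw [h1]
    _ = swn n m := rho_inv_apply _ _

/-! ### fixing `q_n` -/

lemma act_bneg (n : ℕ) : ∀ m : M, (∀ h : ℤ, 1 - (n : ℤ) ≤ h → h ≤ 0 → m.2.1 h = 0) →
    act m ((b0⁻¹) ^ n) = (b0⁻¹) ^ n := by
  induction n with
  | zero => intro m _; simp
  | succ n ih =>
    intro m hm
    rw [pow_succ', act_mul, act_inv, act_of, map_inv, inv_inv, bar_of]
    have h1 : chi (rho (FreeGroup.of (bl (some 0))) m) = 0 := by
      rw [bl_some, rho_b]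
      exact hm 0 (by push_cast; linarith [n.cast_nonneg (α := ℤ)]) le_rfl
    rw [al_some, h1, add_zero, ih]
    intro h h2 h3
    rw [bl_some, rho_b]
    exact hm (h - 1) (by push_cast; linarith) (by linarith)

lemma act_bpos (n : ℕ) : ∀ m : M, (∀ h : ℤ, 1 ≤ h → h ≤ n → m.2.1 h = 0) →
    act m (b0 ^ n) = b0 ^ n := by
  induction n with
  | zero => intro m _; simp
  | succ n ih =>
    intro m hm
    rw [pow_succ', act_mul, act_of, bar_of]
    have h1 : chi m = 0 := hm 1 le_rfl (by push_cast; linarith [n.cast_nonneg (α := ℤ)])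
    rw [al_some, h1, add_zero, ih]
    intro h h2 h3
    rw [bl_some, rho_b_inv]
    exact hm (h + 1) (by linarith) (by push_cast; linarith)

lemma act_qn (n : ℕ) (m : M) (hk : m.1 = 0)
    (hx : ∀ h : ℤ, 1 - (n : ℤ) ≤ h → h ≤ 0 → m.2.1 h = 0)
    (hy : ∀ h : ℤ, 1 - (n : ℤ) ≤ h → h ≤ 0 → m.2.2 h = 0) : act m (qn n) = qn n := by
  unfold qn
  rw [act_mul, act_mul, act_bneg n m hx, act_of, al_none]
  congr 1
  apply act_bpos
  intro h h1 h2
  have e : rho (bar ((b0⁻¹) ^ n * c0))⁻¹ m = cM (rho (tb ^ n) m) := by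
    rw [map_mul, mul_inv_rev, rho_mul, map_pow, map_inv, bar_of, bar_of, bl_none, bl_some,
      rho_c_inv, inv_pow, inv_inv]
  rw [e, rho_tb_pow]
  show (if 1 ≤ h then m.2.2 (h - n) + m.1 h else m.2.1 (h - n)) = 0
  rw [if_pos h1, hk, hy _ (by linarith) (by linarith)]
  simp

/-! ### the finite vectors -/

/-- vector supported on `[1-n, 0]` -/
def ea (n : ℕ) (a : Fin n → ZMod 2) : Sq := fun h =>
  if hh : 1 - (n : ℤ) ≤ h ∧ h ≤ 0 then a ⟨(-h).toNat, by omega⟩ else 0

lemma ea_add (n : ℕ) (a b : Fin n → ZMod 2) : ea n (a + b) = ea n a + ea n b := by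
  funext h
  simp only [ea, Pi.add_apply]
  split_ifs <;> simp

lemma ea_pos (n : ℕ) (a : Fin n → ZMod 2) (h : ℤ) (hh : 1 ≤ h) : ea n a h = 0 := by
  unfold ea
  rw [dif_neg]
  omega

lemma ea_low (n : ℕ) (a : Fin n → ZMod 2) (h : ℤ) (hh : ¬ (1 - (n : ℤ) ≤ h)) :
    ea n a h = 0 := by
  unfold ea
  rw [dif_neg]
  omega

lemma ea_inj (n : ℕ) {a : Fin n → ZMod 2} (h : ea n a = 0) : a = 0 := by
  funext i
  have h1 := congrFun h (-(i : ℕ) : ℤ)
  have h2 : 1 - (n : ℤ) ≤ -((i : ℕ) : ℤ) ∧ -((i : ℕ) : ℤ) ≤ 0 := by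
    have := i.2
    omega
  unfold ea at h1
  rw [dif_pos h2] at h1
  simpa using h1

lemma ea_val (n : ℕ) (x : Sq) (h : ℤ) (h1 : 1 - (n : ℤ) ≤ h) (h2 : h ≤ 0) :
    ea n (fun i => x (-(i : ℕ) : ℤ)) h = x h := by
  unfold ea
  rw [dif_pos ⟨h1, h2⟩]
  have e : (((-h).toNat : ℕ) : ℤ) = -h := Int.toNat_of_nonneg (by omega)
  show x (-(((-h).toNat : ℕ) : ℤ)) = x h
  rw [e, neg_neg]

lemma jj_mid (n : ℕ) (a : Fin n → ZMod 2) (y : Sq) : jj ((0, ea n a, y) : M) = (0, 0, y) := by
  refine Prod.ext rfl (Prod.ext ?_ rfl)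
  funext h
  show (if 1 ≤ h then ea n a h else 0) = 0
  split_ifs with hh
  · exact ea_pos n a h hh
  · rfl

lemma cj_mul (p : F) (m m' : M) : cj p m * cj p m' = cj p (m + m') := by
  unfold cj
  rw [← iM_mul]
  group

lemma cj_zero (p : F) : cj p 0 = 1 := by
  unfold cj
  have : iM 0 = 1 := rfl
  rw [this]
  group

lemma cj_fst (p : F) (m : M) : (cj p m).m.1 = m.1 := by
  unfold cj
  rw [EE.mul_m_fst, EE.mul_m_fst, EE.inv_m, rho_fst]
  simp [iF, iM]

lemma w_mem (n : ℕ) (a d : Fin n → ZMod 2) :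
    (cj 1 ((0, 0, ea n d) : M), cj (qn n) ((0, ea n a, ea n d) : M)) ∈ GS := by
  apply cj_mem
  rw [jj_mid, map_one, inv_one, one_mul, bar_qn, rho_rn]
  · refine Prod.ext rfl (Prod.ext ?_ ?_)
    · funext h
      show (if 1 ≤ h then (0 : ZMod 2) else 0) =
        (if 1 - (n : ℤ) ≤ h then (0 : ZMod 2) else ea n d h)
      split_ifs with h1 h2 h2
      · rfl
      · exact (ea_low n d h h2).symm
      · rfl
      · exact (ea_low n d h h2).symm
    · funext h
      show ea n d h = (if 1 - (n : ℤ) ≤ h then ea n d h else 0)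
      split_ifs with h2
      · rfl
      · exact ea_low n d h h2
  · rfl

/-- elements of `W_n` -/
def wad (n : ℕ) (p : (Fin n → ZMod 2) × (Fin n → ZMod 2)) : HS :=
  ⟨⟨_, w_mem n p.1 p.2⟩, by
    rw [mem_HS]
    exact cj_fst _ _⟩

lemma wad_mul (n : ℕ) (p p' : (Fin n → ZMod 2) × (Fin n → ZMod 2)) :
    wad n p * wad n p' = wad n (p + p') := by
  apply Subtype.ext
  apply Subtype.ext
  apply Prod.ext
  · show cj 1 _ * cj 1 _ = cj 1 _
    rw [cj_mul]
    congr 1
    refine Prod.ext ?_ (Prod.ext ?_ ?_)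
    · simp
    · simp
    · exact (ea_add n p.2 p'.2).symm
  · show cj (qn n) _ * cj (qn n) _ = cj (qn n) _
    rw [cj_mul]
    congr 1
    refine Prod.ext ?_ (Prod.ext ?_ ?_)
    · simp
    · exact (ea_add n p.1 p'.1).symm
    · exact (ea_add n p.2 p'.2).symm

lemma wad_zero (n : ℕ) : wad n 0 = 1 := by
  have e : ea n 0 = 0 := by
    funext h
    simp [ea]
  apply Subtype.ext
  apply Subtype.ext
  apply Prod.ext
  · show cj 1 ((0, 0, ea n 0) : M) = 1
    rw [e]
    exact cj_zero 1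
  · show cj (qn n) ((0, ea n 0, ea n 0) : M) = 1
    rw [e]
    exact cj_zero _

lemma wad_inv (n : ℕ) (p : (Fin n → ZMod 2) × (Fin n → ZMod 2)) : (wad n p)⁻¹ = wad n p := by
  rw [inv_eq_iff_mul_eq_one, wad_mul]
  have : p + p = 0 := by
    apply Prod.ext
    · funext i; exact Z2_add_self _
    · funext i; exact Z2_add_self _
  rw [this, wad_zero]

/-- the subgroup `U` of `H` -/
def UH : Subgroup HS := (St 1).comap HS.subtype
/-- the subgroup `W_n` of `H` -/
def WH (n : ℕ) : Subgroup HS := (St (1, qn n)).comap HS.subtype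

lemma wad_mem (n : ℕ) (p : (Fin n → ZMod 2) × (Fin n → ZMod 2)) : wad n p ∈ WH n := by
  show aq _ (1, qn n) = (1, qn n)
  apply Prod.ext
  · have := ap_cj 1 ((0, 0, ea n p.2) : M) 1
    rw [act_one, mul_one] at this
    exact this
  · have := ap_cj (qn n) ((0, ea n p.1, ea n p.2) : M) 1
    rw [act_one, mul_one] at this
    exact this

lemma wad_UH (n : ℕ) (p : (Fin n → ZMod 2) × (Fin n → ZMod 2)) (h : wad n p ∈ UH) : p = 0 := by
  have h1 : aq (wad n p : GT) 1 = 1 := h
  have h2 : EE.ap (cj (qn n) ((0, ea n p.1, ea n p.2) : M)) 1 = 1 := congrArg Prod.snd h1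
  set m : M := (0, ea n p.1, ea n p.2) with hm
  have h3 := ap_cj (qn n) m (qn n)⁻¹
  rw [mul_inv_cancel, h2] at h3
  have h4 : act m (qn n)⁻¹ = (qn n)⁻¹ := by
    have : qn n * act m (qn n)⁻¹ = 1 := h3.symm
    exact (inv_eq_of_mul_eq_one_right this).symm
  have h5 := cc_act m (qn n)⁻¹
  rw [h4, map_inv, bar_qn] at h5
  have h6 : dd m (rn n)⁻¹ = 0 := by
    have := congrArg (fun z => cc (qn n)⁻¹ + z) h5
    simp only [M_add_self, M_cancel] at this
    exact this.symm
  rw [dd, inv_inv, rho_rn n m rfl, rho_rn_inv] at h6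
  · have h7 : jj m = (0, 0, ea n p.2) := jj_mid n p.1 _
    have h8 : jj (swn n m) = (0, 0, ea n p.1) := by
      refine Prod.ext rfl (Prod.ext ?_ ?_)
      · funext h
        show (if 1 ≤ h then (if 1 - (n : ℤ) ≤ h then ea n p.2 h else ea n p.1 h) else 0) = 0
        split_ifs with c1 c2
        · exact ea_pos n _ h c1
        · exact ea_pos n _ h c1
        · rfl
      · funext h
        show (if 1 - (n : ℤ) ≤ h then ea n p.1 h else ea n p.2 h) = ea n p.1 h
        split_ifs with c1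
        · rfl
        · rw [ea_low n _ h c1, ea_low n _ h c1]
    rw [h7, h8] at h6
    have h9 : swn n ((0, 0, ea n p.1) : M) = (0, ea n p.1, 0) := by
      refine Prod.ext rfl (Prod.ext ?_ ?_)
      · funext h
        show (if 1 - (n : ℤ) ≤ h then ea n p.1 h else 0) = ea n p.1 h
        split_ifs with c1
        · rfl
        · exact (ea_low n _ h c1).symm
      · funext h
        show (if 1 - (n : ℤ) ≤ h then (0 : ZMod 2) else ea n p.1 h) = 0
        split_ifs with c1
        · rfl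
        · exact ea_low n _ h c1
    rw [h9] at h6
    apply Prod.ext
    · apply ea_inj n
      have := congrArg (fun z : M => z.2.1) h6
      simpa using this
    · apply ea_inj n
      have := congrArg (fun z : M => z.2.2) h6
      simpa using this
  · rfl

lemma v_mem (n : ℕ) (a : Fin n → ZMod 2) :
    (cj 1 (0 : M), cj 1 ((0, ea n a, 0) : M)) ∈ GS := by
  apply cj_mem
  rw [jj_mid, map_one, inv_one, one_mul, rho_one, jj_zero]
  rfl

/-- elements of `U` -/
def va (n : ℕ) (a : Fin n → ZMod 2) : HS :=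
  ⟨⟨_, v_mem n a⟩, by
    rw [mem_HS]
    exact cj_fst _ _⟩

lemma cj_one_eq (m : M) : cj 1 m = iM m := by
  unfold cj
  have : iF 1 = 1 := rfl
  rw [this]
  group

lemma va_mem (n : ℕ) (a : Fin n → ZMod 2) : va n a ∈ UH := by
  show aq _ 1 = 1
  apply Prod.ext
  · have := ap_cj 1 (0 : M) 1
    rw [act_one, mul_one] at this
    exact this
  · have := ap_cj 1 ((0, ea n a, 0) : M) 1
    rw [act_one, mul_one] at this
    exact this

/-- every element of `U` is in some `v_a W_n` -/
lemma exists_va (n : ℕ) (u : HS) (hu : u ∈ UH) : ∃ a : Fin n → ZMod 2,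
    (va n a)⁻¹ * u ∈ WH n := by
  have h1 : aq (u : GT) 1 = 1 := hu
  rw [aq_base] at h1
  have hg1 : (u : GT).1.1.g = 1 := congrArg Prod.fst h1
  have hg2 : (u : GT).1.2.g = 1 := congrArg Prod.snd h1
  have hk : (u : GT).1.1.m.1 = 0 := (mem_HS _).mp u.2
  have hq : EE.qM (u : GT).1.1 = sw (EE.qM (u : GT).1.2) := (u : GT).2.2
  unfold EE.qM at hq
  rw [hg1, hg2, map_one, cc_one, rho_one, rho_one, zero_add, zero_add] at hq
  set m := (u : GT).1.1.m with hm
  set m' := (u : GT).1.2.m with hm'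
  have hk' : m'.1 = 0 := by
    have := congrArg (fun z : M => z.1) hq
    have h3 : m.1 = m'.1 := this
    rw [← h3]; exact hk
  have hy : ∀ h : ℤ, h ≤ 0 → m'.2.2 h = 0 := by
    intro h hh
    have := congrFun (congrArg (fun z : M => z.2.1) hq) h
    have h3 : (if 1 ≤ h then m.2.1 h else 0) = m'.2.2 h := this
    rw [if_neg (by omega)] at h3
    exact h3.symm
  refine ⟨fun i => m'.2.1 (-(i : ℕ) : ℤ), ?_⟩
  set a : Fin n → ZMod 2 := fun i => m'.2.1 (-(i : ℕ) : ℤ) with ha
  have e1 : ((u : GT).1.1) = iM m := EE.ext hg1 rfl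
  have e2 : ((u : GT).1.2) = iM m' := EE.ext hg2 rfl
  show aq _ (1, qn n) = (1, qn n)
  apply Prod.ext
  · show EE.ap ((cj 1 (0 : M))⁻¹ * (u : GT).1.1) 1 = 1
    rw [e1, cj_zero, inv_one, one_mul, ap_iM, act_one]
  · show EE.ap ((cj 1 ((0, ea n a, 0) : M))⁻¹ * (u : GT).1.2) (qn n) = qn n
    rw [e2, cj_one_eq, iM_inv, iM_mul, ap_iM]
    apply act_qn
    · show 0 + m'.1 = 0
      rw [hk', add_zero]
    · intro h h1 h2
      show ea n a h + m'.2.1 h = 0
      rw [ha, ea_val n m'.2.1 h h1 h2]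
      exact Z2_add_self _
    · intro h _ h2
      show 0 + m'.2.2 h = 0
      rw [hy h h2, add_zero]

lemma WH_open (n : ℕ) : IsOpen (WH n : Set HS) :=
  (St_open (1, qn n)).preimage continuous_subtype_val

lemma UH_open : IsOpen (UH : Set HS) :=
  (St_open 1).preimage continuous_subtype_val

lemma ballH_compact (R : ℕ) :
    IsCompact {a : HS | (orb (a : GT)).1.norm ≤ R ∧ (orb (a : GT)).2.norm ≤ R} :=
  HS_closed.isClosedEmbedding_subtypeVal.isCompact_preimage (ball_compact R)

lemma norm_b_pow (n : ℕ) : (b0 ^ n).norm ≤ n := by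
  rw [FreeGroup.norm_of_pow]

lemma norm_qn (n : ℕ) : (qn n).norm ≤ 2 * n + 1 := by
  unfold qn
  have h1 := FreeGroup.norm_mul_le ((b0⁻¹) ^ n * c0) (b0 ^ n)
  have h2 := FreeGroup.norm_mul_le ((b0⁻¹) ^ n) c0
  have h3 : ((b0⁻¹) ^ n).norm ≤ n := by
    rw [inv_pow, FreeGroup.norm_inv_eq]
    exact norm_b_pow n
  have h4 : c0.norm = 1 := FreeGroup.norm_of _
  have h5 := norm_b_pow n
  omega

lemma WH_orb (n : ℕ) (h : HS) (hh : h ∈ WH n) : (orb (h : GT)).1 = 1 ∧
    (orb (h : GT)).2.norm ≤ 4 * n + 2 := by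
  have h1 : aq (h : GT) (1, qn n) = (1, qn n) := hh
  have h2 : EE.ap (h : GT).1.1 1 = 1 := congrArg Prod.fst h1
  have h3 : EE.ap (h : GT).1.2 (qn n) = qn n := congrArg Prod.snd h1
  constructor
  · show (h : GT).1.1.g = 1
    simpa [EE.ap] using h2
  · show (h : GT).1.2.g.norm ≤ 4 * n + 2
    have h4 : (h : GT).1.2.g = qn n * (act (h : GT).1.2.m (qn n))⁻¹ := by
      rw [eq_mul_inv_iff_mul_eq]
      exact h3
    rw [h4]
    have h5 := FreeGroup.norm_mul_le (qn n) (act (h : GT).1.2.m (qn n))⁻¹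
    rw [FreeGroup.norm_inv_eq, norm_act] at h5
    have h6 := norm_qn n
    omega

lemma WH_compact (n : ℕ) : IsCompact (WH n : Set HS) := by
  refine (ballH_compact (4 * n + 2)).of_isClosed_subset
    ((WH n).isClosed_of_isOpen (WH_open n)) ?_
  intro h hh
  obtain ⟨h1, h2⟩ := WH_orb n h hh
  refine ⟨?_, h2⟩
  rw [h1]
  simp

lemma measure_left (ν : Measure HS) [ν.IsHaarMeasure] (D : Set HS) (a : HS) :
    ν ((fun x => a * x) '' D) = ν D := by
  have : (fun x => a * x) '' D = (fun x => a⁻¹ * x) ⁻¹' D := by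
    ext x
    constructor
    · rintro ⟨y, hy, rfl⟩
      simpa using hy
    · intro hx
      exact ⟨a⁻¹ * x, hx, by simp⟩
  rw [this, measure_preimage_mul]

theorem measure_growth (ν : Measure HS) [ν.IsHaarMeasure] (n : ℕ) :
    2 ^ n * ν (UH : Set HS) ≤ ν (WH n : Set HS) := by
  classical
  set D : Set HS := (UH : Set HS) ∩ (WH n : Set HS) with hD
  have hDm : MeasurableSet D := (UH_open.inter (WH_open n)).measurableSet
  have c1 : ν (UH : Set HS) ≤ 2 ^ n * ν D := by
    have hsub : (UH : Set HS) ⊆ ⋃ a : Fin n → ZMod 2, (fun x => va n a * x) '' D := by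
      intro u hu
      obtain ⟨a, ha⟩ := exists_va n u hu
      rw [Set.mem_iUnion]
      exact ⟨a, (va n a)⁻¹ * u, ⟨UH.mul_mem (UH.inv_mem (va_mem n a)) hu, ha⟩, by simp⟩
    calc ν (UH : Set HS) ≤ ν (⋃ a : Fin n → ZMod 2, (fun x => va n a * x) '' D) :=
          measure_mono hsub
      _ ≤ ∑' a : Fin n → ZMod 2, ν ((fun x => va n a * x) '' D) := measure_iUnion_le _
      _ = 2 ^ n * ν D := by
          simp only [measure_left]
          rw [tsum_fintype, Finset.sum_const, Finset.card_univ, nsmul_eq_mul]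
          congr 1
          simp [ZMod.card]
  have c2 : 4 ^ n * ν D ≤ ν (WH n : Set HS) := by
    have hsub : (⋃ p : (Fin n → ZMod 2) × (Fin n → ZMod 2), (fun x => wad n p * x) '' D) ⊆
        (WH n : Set HS) := by
      intro x hx
      rw [Set.mem_iUnion] at hx
      obtain ⟨p, y, ⟨_, hy⟩, rfl⟩ := hx
      exact (WH n).mul_mem (wad_mem n p) hy
    have hdisj : Pairwise (Function.onFun Disjoint
        (fun p : (Fin n → ZMod 2) × (Fin n → ZMod 2) => (fun x => wad n p * x) '' D)) := by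
      intro p p' hne
      rw [Function.onFun, Set.disjoint_left]
      rintro _ ⟨y, ⟨hy, _⟩, rfl⟩ ⟨z, ⟨hz, _⟩, hz2⟩
      apply hne
      have h1 : wad n (p + p') ∈ UH := by
        have h2 : wad n (p + p') = y * z⁻¹ := by
          rw [← wad_mul]
          have h3 : wad n p' * z = wad n p * y := hz2
          have h4 : wad n p * (wad n p' * z) = y := by
            rw [h3, ← mul_assoc]
            have := wad_inv n p
            calc wad n p * wad n p * y = (wad n p)⁻¹ * wad n p * y := by rw [this]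
              _ = y := by rw [inv_mul_cancel, one_mul]
          rw [← h4]
          group
        rw [h2]
        exact UH.mul_mem hy (UH.inv_mem hz)
      have h2 := wad_UH n _ h1
      have h3 : p + p = 0 := by
        apply Prod.ext
        · funext i; exact Z2_add_self _
        · funext i; exact Z2_add_self _
      calc p = p + (p + p') := by rw [h2, add_zero]
        _ = (p + p) + p' := by rw [add_assoc]
        _ = p' := by rw [h3, zero_add]
    calc 4 ^ n * ν D = ∑' p : (Fin n → ZMod 2) × (Fin n → ZMod 2),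
          ν ((fun x => wad n p * x) '' D) := by
          simp only [measure_left]
          rw [tsum_fintype, Finset.sum_const, Finset.card_univ, nsmul_eq_mul]
          congr 1
          have : Fintype.card ((Fin n → ZMod 2) × (Fin n → ZMod 2)) = 4 ^ n := by
            simp only [Fintype.card_prod, Fintype.card_fun, ZMod.card, Fintype.card_fin]
            rw [← mul_pow]
            norm_num
          rw [this]
          push_cast
          rfl
      _ = ν (⋃ p : (Fin n → ZMod 2) × (Fin n → ZMod 2), (fun x => wad n p * x) '' D) := by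
          rw [measure_iUnion hdisj]
          intro p
          have : (fun x => wad n p * x) '' D = (fun x => (wad n p)⁻¹ * x) ⁻¹' D := by
            ext x
            constructor
            · rintro ⟨y, hy, rfl⟩
              simpa using hy
            · intro hx
              exact ⟨(wad n p)⁻¹ * x, hx, by simp⟩
          simp only [this]
          exact (continuous_const_mul (wad n p)⁻¹).measurable hDm
      _ ≤ _ := measure_mono hsub
  calc 2 ^ n * ν (UH : Set HS) ≤ 2 ^ n * (2 ^ n * ν D) := mul_le_mul_right c1 _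
    _ = 4 ^ n * ν D := by
        rw [← mul_assoc, ← mul_pow]
        norm_num
    _ ≤ _ := c2

end Pool.Agent.Helper23.NC
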