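import Mathlib
import Pool.Agent.Helper23.NC.Wn
import Pool.Agent.Helper23.NC.RDG

set_option autoImplicit false

/-!
`H` does not have rapid decay.
-/

namespace Pool.Agent.Helper23.NC

open MeasureTheory ENNReal

/-- For every Haar measure `ν` on `H` there is no length function on `H`, bounded on compact sets,
with the rapid decay inequality (continuity or measurability of the length is not needed). -/
theorem H_not_RD (ν : Measure HS) [ν.IsHaarMeasure] :
    ¬ ∃ L : HS → ℝ, (∀ g, 0 ≤ L g) ∧ (∀ g h, L (g * h) ≤ L g + L h) ∧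
      (∀ K : Set HS, IsCompact K → BddAbove (L '' K)) ∧
      ∃ C s : ℝ, 0 ≤ C ∧ 0 ≤ s ∧
        ∀ f ξ : HS → ℂ, Continuous f → HasCompactSupport f → Continuous ξ →
          HasCompactSupport ξ →
          eLpNorm (fun x => ∫ y, f y * ξ (y⁻¹ * x) ∂ν) 2 ν ≤
            ENNReal.ofReal C * eLpNorm (fun g => f g * (((1 + L g) ^ s : ℝ) : ℂ)) 2 ν *
              eLpNorm ξ 2 ν := by
  rintro ⟨L, hL0, hLmul, hLbdd, C, s, hC, hs, hRD⟩
  obtain ⟨B', hB'⟩ := hLbdd _ (ballH_compact 1)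
  set B : ℝ := max B' 0 with hBdef
  have hB0 : 0 ≤ B := le_max_right _ _
  have hB : ∀ h : HS, (h : GT) ∈ B1 → L h ≤ B := fun h hh =>
    (hB' ⟨h, hh, rfl⟩).trans (le_max_left _ _)
  have hLW : ∀ n : ℕ, ∀ h ∈ WH n, L h ≤ (4 * (n : ℝ) + 3) * B := by
    intro n h hh
    obtain ⟨h1, h2⟩ := WH_orb n h hh
    have h3 := isP_of_bar (orb (h : GT)) (orb_bar _)
    rw [h1, FreeGroup.norm_one] at h3
    have h4 := length_le L hLmul B hB _ h h3
    refine h4.trans (mul_le_mul_of_nonneg_right ?_ hB0)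
    have h5 : ((orb (h : GT)).2.norm : ℝ) ≤ 4 * n + 2 := by exact_mod_cast h2
    push_cast
    linarith
  set k : ℕ := ⌈2 * s⌉₊ with hk
  have hU0 : 0 < (ν (UH : Set HS)).toReal := by
    rw [ENNReal.toReal_pos_iff]
    refine ⟨UH_open.measure_pos ν ⟨1, UH.one_mem⟩, ?_⟩
    have h1 : (UH : Set HS) ⊆ {a : HS | (orb (a : GT)).1.norm ≤ 1 ∧ (orb (a : GT)).2.norm ≤ 1} := by
      intro u hu
      have h1 : aq (u : GT) 1 = 1 := hu
      rw [aq_base] at h1
      show _ ∧ _
      rw [h1]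
      simp
    exact (measure_mono h1).trans_lt (ballH_compact 1).measure_lt_top
  set V : ℝ := (ν (UH : Set HS)).toReal with hV
  have main : ∀ n : ℕ, 1 ≤ n → (2 : ℝ) ^ n * V ≤ C ^ 2 * (1 + 7 * B) ^ k * (n : ℝ) ^ k := by
    intro n hn
    have hn' : (1 : ℝ) ≤ n := by exact_mod_cast hn
    have h1 := nonRD_bound ν (WH n) (WH_open n) (WH_compact n) L hL0 ((4 * (n : ℝ) + 3) * B)
      (hLW n) C s hC hs hRD
    have h2 : (2 : ℝ) ^ n * V ≤ (ν (WH n : Set HS)).toReal := by
      have h3 := ENNReal.toReal_mono (WH_compact n).measure_ne_top (measure_growth ν n)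
      rw [ENNReal.toReal_mul, ENNReal.toReal_pow] at h3
      exact h3
    have h4 : (1 : ℝ) ≤ 1 + (4 * (n : ℝ) + 3) * B := by
      have : 0 ≤ (4 * (n : ℝ) + 3) * B := by positivity
      linarith
    have h5 : ((1 + (4 * (n : ℝ) + 3) * B) ^ s) ^ 2 ≤ ((1 + 7 * B) * n) ^ k := by
      calc ((1 + (4 * (n : ℝ) + 3) * B) ^ s) ^ 2
          = (1 + (4 * (n : ℝ) + 3) * B) ^ (2 * s) := by
            rw [← Real.rpow_natCast, ← Real.rpow_mul (by linarith)]
            congr 1
            push_cast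
            ring
        _ ≤ (1 + (4 * (n : ℝ) + 3) * B) ^ (k : ℝ) :=
            Real.rpow_le_rpow_of_exponent_le h4 (Nat.le_ceil _)
        _ = (1 + (4 * (n : ℝ) + 3) * B) ^ k := Real.rpow_natCast _ _
        _ ≤ _ := by
            apply pow_le_pow_left₀ (by linarith)
            nlinarith
    calc (2 : ℝ) ^ n * V ≤ _ := h2
      _ ≤ _ := h1
      _ ≤ C ^ 2 * ((1 + 7 * B) * n) ^ k := by gcongr
      _ = _ := by rw [mul_pow]; ring
  have hlim := tendsto_pow_const_div_const_pow_of_one_lt k (show (1 : ℝ) < 2 by norm_num)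
  set D : ℝ := C ^ 2 * (1 + 7 * B) ^ k + 1 with hD
  have hDpos : 0 < D := by positivity
  have hev := hlim.eventually (gt_mem_nhds (show (0 : ℝ) < V / D by positivity))
  obtain ⟨n, hn1, hn2⟩ := (hev.and (Filter.eventually_ge_atTop 1)).exists
  have h2n : (0 : ℝ) < 2 ^ n := by positivity
  rw [div_lt_div_iff₀ h2n hDpos] at hn1
  have hm := main n hn2
  have hn1' : (1 : ℝ) ≤ n := by exact_mod_cast hn2
  have h8 : (0 : ℝ) < (n : ℝ) ^ k := by positivity
  have h9 : C ^ 2 * (1 + 7 * B) ^ k * (n : ℝ) ^ k ≤ (n : ℝ) ^ k * D := by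
    rw [hD]; nlinarith
  linarith

instance : LocallyCompactSpace HS := HS_closed.isClosedEmbedding_subtypeVal.locallyCompactSpace

end Pool.Agent.Helper23.NC
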